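import Pool.Agent.TH227.BM.Coding
import Pool.Agent.TH227.TM.Meas

/-!
Diffeomorphism of manifolds with boundary reduces to diffeomorphism of manifolds without boundary.
-/

set_option linter.unusedSectionVars false

open Set Filter Topology
open scoped ContDiff Manifold

namespace Pool.Agent.TH227.BM

open Pool.Agent.TH227

variable {E₁ : Type} [NormedAddCommGroup E₁] [NormedSpace ℝ E₁] [Half E₁]
  [FiniteDimensional ℝ E₁]
variable {E : Type} [NormedAddCommGroup E] [InnerProductSpace ℝ E] [FiniteDimensional ℝ E]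

/-- The indexing of the names. -/
noncomputable def eN : ℕ ≃ Nm := (nonempty_equiv_of_countable (α := ℕ) (β := Nm)).some

/-- The relations attached to a code, indexed by natural numbers. -/
noncomputable def relC (c : Code E₁) (j a b : ℕ) : Prop :=
  ∃ S : Sym, (exists_injective_nat Sym).choose S = j ∧ RR c S (eN a) (eN b)

theorem relC_meas (j a b : ℕ) : MeasurableSet {c : Code E₁ | relC c j a b} := by
  have : {c : Code E₁ | relC c j a b} = ⋃ S : Sym, {c : Code E₁ |
      c ∈ {c : Code E₁ | RR c S (eN a) (eN b)} ∧ (exists_injective_nat Sym).choose S = j} := by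
    ext c
    simp only [mem_iUnion, mem_ofPred_eq]
    constructor
    · rintro ⟨S, h1, h2⟩
      exact ⟨S, h2, h1⟩
    · rintro ⟨S, h2, h1⟩
      exact ⟨S, h1, h2⟩
  rw [this]
  refine MeasurableSet.iUnion fun S => ?_
  by_cases h : (exists_injective_nat Sym).choose S = j
  · have h2 : {c : Code E₁ | c ∈ {c : Code E₁ | RR c S (eN a) (eN b)} ∧
        (exists_injective_nat Sym).choose S = j} = {c : Code E₁ | RR c S (eN a) (eN b)} := by
      ext c
      simp [h]
    rw [h2]
    exact RR_meas S _ _
  · have h2 : {c : Code E₁ | c ∈ {c : Code E₁ | RR c S (eN a) (eN b)} ∧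
        (exists_injective_nat Sym).choose S = j} = ∅ := by
      ext c
      simp [h]
    rw [h2]
    exact MeasurableSet.empty

theorem meas_relC : Measurable (relC : Code E₁ → ℕ → ℕ → ℕ → Prop) :=
  measurable_pi_lambda _ fun j => measurable_pi_lambda _ fun a => measurable_pi_lambda _ fun b =>
    measurableSet_setOfPred.1 (relC_meas j a b)

theorem relC_iff {I : ModelWithCorners ℝ E₁ (X E₁)} (hI : Incl I) (c c' : Code E₁) :
    Nonempty (Diffeomorph I I c.Pts c'.Pts ∞) ↔
      ∃ σ : ℕ ≃ ℕ, ∀ j a b, relC c j a b ↔ relC c' j (σ a) (σ b) := by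
  have hinj := (exists_injective_nat Sym).choose_spec
  rw [← iso_iff_diffeomorph hI, iso_iff]
  constructor
  · rintro ⟨σ, hσ⟩
    refine ⟨(eN.trans σ).trans eN.symm, ?_⟩
    intro j a b
    refine exists_congr fun S => and_congr_right fun _ => ?_
    show RR c S (eN a) (eN b) ↔ RR c' S (eN (eN.symm (σ (eN a)))) (eN (eN.symm (σ (eN b))))
    rw [eN.apply_symm_apply, eN.apply_symm_apply]
    exact hσ S (eN a) (eN b)
  · rintro ⟨σ, hσ⟩
    refine ⟨(eN.symm.trans σ).trans eN, ?_⟩
    intro S a b
    have h := hσ ((exists_injective_nat Sym).choose S) (eN.symm a) (eN.symm b)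
    have key : ∀ (c : Code E₁) (a b : ℕ), relC c ((exists_injective_nat Sym).choose S) a b ↔
        RR c S (eN a) (eN b) := by
      intro c a b
      constructor
      · rintro ⟨S', h1, h2⟩
        rw [hinj h1] at h2
        exact h2
      · intro h2
        exact ⟨S, rfl, h2⟩
    rw [key, key, eN.apply_symm_apply, eN.apply_symm_apply] at h
    exact h

/-- The reduction of diffeomorphism of manifolds with boundary in one dimension to diffeomorphism
of manifolds without boundary in another dimension. -/
theorem reduction {I : ModelWithCorners ℝ E₁ (X E₁)} (hI : Incl I) (P : TM.Fr E) :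
    ∃ F : Code E₁ → CM.Code E, Measurable F ∧
    (∀ c, ConnectedSpace (F c).Pts) ∧ ∀ c c' : Code E₁,
      (Nonempty (Diffeomorph I I c.Pts c'.Pts ∞) ↔
        Nonempty (Diffeomorph 𝓘(ℝ, E) 𝓘(ℝ, E) (F c).Pts (F c').Pts ∞)) :=
  ⟨fun c => TM.mcode P (relC c), (TM.meas_mcode P).comp meas_relC,
    fun c => TM.mcode_connected P (relC c),
    fun c c' => (relC_iff hI c c').trans (TM.mcode_iff P (relC c) (relC c')).symm⟩

end Pool.Agent.TH227.BM
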