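import Mathlib

/-!
Differential calculus on a half-space, for functions defined on the half-space only.
-/

set_option linter.unusedSectionVars false

open Set Filter Topology
open scoped ContDiff

namespace Pool.Agent.TH227.BM

/-- A half-space of `E`, given by a linear functional. -/
class Half (E : Type) [NormedAddCommGroup E] [NormedSpace ℝ E] where
  lam : E →L[ℝ] ℝ
  e : E
  lam_e : lam e = 1

variable {κ : Type} {E : Type} [NormedAddCommGroup E] [NormedSpace ℝ E] [Half E]
variable {F : Type} [NormedAddCommGroup F] [NormedSpace ℝ F]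

/-- The closed half-space. -/
def Hs (E : Type) [NormedAddCommGroup E] [NormedSpace ℝ E] [Half E] : Set E :=
  {x | 0 ≤ Half.lam x}

/-- The points of the closed half-space. -/
abbrev X (E : Type) [NormedAddCommGroup E] [NormedSpace ℝ E] [Half E] : Type :=
  {x : E // 0 ≤ Half.lam x}

/-- The origin. -/
def x0 : X E := ⟨0, by simp⟩

theorem Hs_convex : Convex ℝ (Hs E) := by
  intro x hx y hy a b ha hb _
  show 0 ≤ Half.lam (a • x + b • y)
  rw [map_add, map_smul, map_smul]
  have h1 : 0 ≤ Half.lam x := hx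
  have h2 : 0 ≤ Half.lam y := hy
  simp only [smul_eq_mul]
  positivity

theorem Hs_closed : IsClosed (Hs E) :=
  isClosed_le continuous_const (Half.lam (E := E)).continuous

theorem Hs_int {x : E} (hx : 0 < Half.lam x) : Hs E ∈ 𝓝 x := by
  have h1 : IsOpen {x : E | 0 < Half.lam x} :=
    isOpen_lt continuous_const (Half.lam (E := E)).continuous
  filter_upwards [h1.mem_nhds hx] with y hy
  exact le_of_lt hy

theorem Hs_ud : UniqueDiffOn ℝ (Hs E) := by
  refine uniqueDiffOn_convex Hs_convex ⟨Half.e, ?_⟩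
  rw [mem_interior_iff_mem_nhds]
  exact Hs_int (by rw [Half.lam_e]; norm_num)

theorem ud (x : X E) : UniqueDiffWithinAt ℝ (Hs E) (x : E) := Hs_ud _ x.2

instance [FiniteDimensional ℝ E] : ProperSpace (X E) := by
  have : ProperSpace E := FiniteDimensional.proper_real E
  have h : IsClosed {x : E | 0 ≤ Half.lam x} := Hs_closed
  refine ⟨fun x r => ?_⟩
  have h1 : Metric.closedBall x r = (Subtype.val : X E → E) ⁻¹' (Metric.closedBall (x : E) r) := by
    ext y
    simp [Subtype.dist_eq]
  rw [h1]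
  exact h.isClosedEmbedding_subtypeVal.isCompact_preimage (isCompact_closedBall _ _)

instance [FiniteDimensional ℝ E] : SecondCountableTopology (X E) := by
  have : ProperSpace E := FiniteDimensional.proper_real E
  infer_instance

instance : Nonempty (X E) := ⟨x0⟩

open Classical in
/-- The retraction. -/
noncomputable def rt (x : E) : X E := if h : 0 ≤ Half.lam x then ⟨x, h⟩ else x0

theorem rt_of {x : E} (h : 0 ≤ Half.lam x) : rt x = ⟨x, h⟩ := by
  unfold rt
  rw [dif_pos h]

theorem rt_coe (x : X E) : rt (x : E) = x := rt_of x.2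

/-- Extension of a function to `E`. -/
noncomputable def lf (u : X E → F) : E → F := fun x => u (rt x)

theorem lf_coe (u : X E → F) (x : X E) : lf u (x : E) = u x := by
  unfold lf
  rw [rt_coe]

theorem nhds_coe (x : X E) : map (Subtype.val : X E → E) (𝓝 x) = 𝓝[Hs E] (x : E) :=
  map_nhds_subtype_val x

theorem ev_coe {x : X E} {P : E → Prop} :
    (∀ᶠ y in 𝓝[Hs E] (x : E), P y) ↔ ∀ᶠ y : X E in 𝓝 x, P (y : E) := by
  rw [← nhds_coe, eventually_map]

theorem lf_congr {u v : X E → F} {x : X E} (h : u =ᶠ[𝓝 x] v) :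
    lf u =ᶠ[𝓝[Hs E] (x : E)] lf v := by
  refine ev_coe.2 ?_
  filter_upwards [h] with y hy
  rw [lf_coe, lf_coe, hy]

/-- Smoothness at a point of the half-space. -/
def CD (u : X E → F) (x : X E) : Prop := ContDiffWithinAt ℝ ∞ (lf u) (Hs E) x

/-- The derivative. -/
noncomputable def dv (u : X E → F) (x : X E) : E →L[ℝ] F := fderivWithin ℝ (lf u) (Hs E) x

theorem CD.congr {u v : X E → F} {x : X E} (h : CD u x) (e : u =ᶠ[𝓝 x] v) : CD v x :=
  ContDiffWithinAt.congr_of_eventuallyEq h (lf_congr e.symm)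
    (by rw [lf_coe, lf_coe]; exact e.symm.self_of_nhds)

theorem dv_congr {u v : X E → F} {x : X E} (e : u =ᶠ[𝓝 x] v) : dv u x = dv v x :=
  (lf_congr e).fderivWithin_eq (by rw [lf_coe, lf_coe]; exact e.self_of_nhds)

theorem CD.continuousAt {u : X E → F} {x : X E} (h : CD u x) : ContinuousAt u x := by
  have h1 : Tendsto (lf u) (𝓝[Hs E] (x : E)) (𝓝 (lf u x)) := h.continuousWithinAt
  rw [← nhds_coe, tendsto_map'_iff, lf_coe] at h1
  refine h1.congr ?_
  intro y
  exact lf_coe u y

theorem CD.diff {u : X E → F} {x : X E} (h : CD u x) :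
    DifferentiableWithinAt ℝ (lf u) (Hs E) x :=
  ContDiffWithinAt.differentiableWithinAt h (by simp)

theorem CD.dv {u : X E → F} {x : X E} (h : CD u x) : ContinuousAt (dv u) x := by
  have h1 : ContDiffWithinAt ℝ 0 (fderivWithin ℝ (lf u) (Hs E)) (Hs E) (x : E) :=
    ContDiffWithinAt.fderivWithin_right h Hs_ud (by simp) x.2
  have h2 : Tendsto (fderivWithin ℝ (lf u) (Hs E)) (𝓝[Hs E] (x : E))
      (𝓝 (fderivWithin ℝ (lf u) (Hs E) x)) := h1.continuousWithinAt
  rw [← nhds_coe, tendsto_map'_iff] at h2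
  exact h2

/-- A function on `E` restricts to a smooth function on the half-space. -/
theorem CD_of {g : E → F} {x : X E} (h : ContDiffAt ℝ ∞ g (x : E)) :
    CD (fun y : X E => g y) x := by
  refine ContDiffWithinAt.congr_of_eventuallyEq (h.contDiffWithinAt (s := Hs E)) ?_
    (lf_coe (fun y : X E => g y) x)
  refine ev_coe.2 (Filter.Eventually.of_forall fun y => ?_)
  exact lf_coe (fun y : X E => g y) y

theorem dv_of {g : E → F} {x : X E} (h : DifferentiableAt ℝ g (x : E)) :
    dv (fun y : X E => g y) x = fderiv ℝ g x := by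
  have h1 : lf (fun y : X E => g y) =ᶠ[𝓝[Hs E] (x : E)] g :=
    ev_coe.2 (Filter.Eventually.of_forall fun y => lf_coe (fun y : X E => g y) y)
  show fderivWithin ℝ _ _ _ = _
  rw [h1.fderivWithin_eq (lf_coe (fun y : X E => g y) x)]
  exact h.fderivWithin (ud x)

/-- Boundary points. -/
def bd (x : X E) : Prop := Half.lam (x : E) = 0

/-- The map into `E`. -/
def cf (u : X E → X E) : X E → E := fun x => (u x : E)

/-- Smoothness of a map into the half-space at a point, with preservation of the boundary. -/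
def CX (u : X E → X E) (x : X E) : Prop := CD (cf u) x ∧ (bd (u x) ↔ bd x)

/-- The derivative of a map into the half-space. -/
noncomputable def dx (u : X E → X E) (x : X E) : E →L[ℝ] E := dv (cf u) x

theorem cf_congr {u v : X E → X E} {x : X E} (e : u =ᶠ[𝓝 x] v) : cf u =ᶠ[𝓝 x] cf v := by
  filter_upwards [e] with y hy
  unfold cf
  rw [hy]

theorem CX.congr {u v : X E → X E} {x : X E} (h : CX u x) (e : u =ᶠ[𝓝 x] v) : CX v x := by
  refine ⟨h.1.congr (cf_congr e), ?_⟩
  rw [← e.self_of_nhds]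
  exact h.2

theorem dx_congr {u v : X E → X E} {x : X E} (e : u =ᶠ[𝓝 x] v) : dx u x = dx v x :=
  dv_congr (cf_congr e)

theorem CX.continuousAt {u : X E → X E} {x : X E} (h : CX u x) : ContinuousAt u x := by
  have h1 := h.1.continuousAt
  rw [Topology.IsEmbedding.subtypeVal.continuousAt_iff]
  exact h1

theorem lf_comp (v : X E → F) (u : X E → X E) : lf (v ∘ u) = lf v ∘ lf (cf u) := by
  funext x
  show v (u (rt x)) = v (rt ((u (rt x) : X E) : E))
  rw [rt_coe]

theorem lf_maps (u : X E → X E) : MapsTo (lf (cf u)) (Hs E) (Hs E) := fun x _ => (u (rt x)).2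

theorem lf_cf (u : X E → X E) (x : X E) : lf (cf u) (x : E) = (u x : E) := lf_coe (cf u) x

theorem CD.comp' {v : X E → F} {u : X E → X E} {x : X E} (hv : CD v (u x)) (hu : CD (cf u) x) :
    CD (v ∘ u) x := by
  show ContDiffWithinAt ℝ ∞ (lf (v ∘ u)) (Hs E) x
  rw [lf_comp]
  refine ContDiffWithinAt.comp (x : E) (t := Hs E) ?_ hu (lf_maps u)
  rw [lf_cf]
  exact hv

theorem dv_comp' {v : X E → F} {u : X E → X E} {x : X E} (hv : CD v (u x)) (hu : CD (cf u) x) :
    dv (v ∘ u) x = (dv v (u x)).comp (dx u x) := by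
  show fderivWithin ℝ (lf (v ∘ u)) (Hs E) x = _
  rw [lf_comp, fderivWithin_comp (x : E) (t := Hs E) (by rw [lf_cf]; exact hv.diff) hu.diff
    (lf_maps u) (ud x), lf_cf]
  rfl

theorem CD.comp {v : X E → F} {u : X E → X E} {x : X E} (hv : CD v (u x)) (hu : CX u x) :
    CD (v ∘ u) x := CD.comp' hv hu.1

theorem dv_comp {v : X E → F} {u : X E → X E} {x : X E} (hv : CD v (u x)) (hu : CX u x) :
    dv (v ∘ u) x = (dv v (u x)).comp (dx u x) := dv_comp' hv hu.1

theorem CX.comp {v u : X E → X E} {x : X E} (hv : CX v (u x)) (hu : CX u x) : CX (v ∘ u) x :=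
  ⟨CD.comp (v := cf v) hv.1 hu, hv.2.trans hu.2⟩

theorem dx_comp {v u : X E → X E} {x : X E} (hv : CX v (u x)) (hu : CX u x) :
    dx (v ∘ u) x = (dx v (u x)).comp (dx u x) :=
  dv_comp (v := cf v) hv.1 hu

theorem CX_id (x : X E) : CX id x := ⟨CD_of (g := fun y : E => y) contDiffAt_id, Iff.rfl⟩

theorem dx_id (x : X E) : dx (id : X E → X E) x = ContinuousLinearMap.id ℝ E := by
  have h1 := dv_of (g := fun y : E => y) (x := x) differentiableAt_id
  rw [fderiv_fun_id] at h1
  exact h1

theorem not_bd {x : X E} : ¬ bd x ↔ 0 < Half.lam (x : E) := by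
  constructor
  · intro h
    exact lt_of_le_of_ne x.2 (fun h' => h h'.symm)
  · intro h h'
    exact h.ne' h'

theorem not_bd_of_inv {u v : X E → X E} {x : X E} (hu : CD (cf u) x) (hv : CD (cf v) (u x))
    (h1 : v (u x) = x) (h2 : ∀ᶠ y in 𝓝 (u x), u (v y) = y) (hx : ¬ bd x) : ¬ bd (u x) := by
  intro hb
  rw [not_bd] at hx
  have hd : DifferentiableAt ℝ (lf (cf u)) (x : E) :=
    hu.diff.differentiableAt (Hs_int hx)
  have hf : fderiv ℝ (lf (cf u)) (x : E) = dx u x :=
    (fderivWithin_of_mem_nhds (Hs_int hx)).symm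
  have hmin : IsLocalMin (fun z => Half.lam (lf (cf u) z)) (x : E) := by
    refine Filter.Eventually.of_forall fun z => ?_
    show Half.lam (lf (cf u) x) ≤ Half.lam (lf (cf u) z)
    rw [lf_cf, hb]
    exact (u (rt z)).2
  have h3 := hmin.fderiv_eq_zero
  have h4 : fderiv ℝ (fun z => Half.lam (lf (cf u) z)) (x : E) =
      (Half.lam (E := E)).comp (dx u x) := by
    rw [← hf]
    exact ((Half.lam (E := E)).hasFDerivAt.comp (x : E) hd.hasFDerivAt).fderiv
  rw [h4] at h3
  have h5 : (dx u x).comp (dx v (u x)) = ContinuousLinearMap.id ℝ E := by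
    have h6 := dv_comp' (v := cf u) (u := v) (x := u x) (by rw [h1]; exact hu) hv
    rw [h1] at h6
    have h7 : dv (cf u ∘ v) (u x) = dx (id : X E → X E) (u x) := by
      refine dv_congr ?_
      filter_upwards [h2] with y hy
      show ((u (v y) : X E) : E) = y
      rw [hy]
    rw [← dx_id (u x), ← h7, h6]
    rfl
  have h6 : Half.lam ((dx u x) ((dx v (u x)) (Half.e : E))) = 0 := by
    have := congrArg (fun f : E →L[ℝ] ℝ => f ((dx v (u x)) (Half.e : E))) h3
    exact this
  have h7 : (dx u x) ((dx v (u x)) (Half.e : E)) = Half.e :=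
    congrArg (fun f : E →L[ℝ] E => f (Half.e : E)) h5
  rw [h7, Half.lam_e] at h6
  exact one_ne_zero h6

theorem CX_of_inv {u v : X E → X E} {x : X E} (hu : CD (cf u) x) (hv : CD (cf v) (u x))
    (h1 : ∀ᶠ y in 𝓝 x, v (u y) = y) (h2 : ∀ᶠ y in 𝓝 (u x), u (v y) = y) : CX u x := by
  refine ⟨hu, ?_⟩
  have h0 : v (u x) = x := h1.self_of_nhds
  constructor
  · intro h
    by_contra hb
    exact not_bd_of_inv hu hv h0 h2 hb h
  · intro h
    by_contra hb
    have h3 := not_bd_of_inv (u := v) (v := u) (x := u x) hv (by rw [h0]; exact hu)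
      (by rw [h0]) (by rw [h0]; exact h1) hb
    rw [h0] at h3
    exact h3 h

theorem CD.add {u v : X E → F} {x : X E} (hu : CD u x) (hv : CD v x) :
    CD (fun y => u y + v y) x := ContDiffWithinAt.add hu hv

theorem CD.sub {u v : X E → F} {x : X E} (hu : CD u x) (hv : CD v x) :
    CD (fun y => u y - v y) x := ContDiffWithinAt.sub hu hv

theorem CD.smul {χ : X E → ℝ} {v : X E → F} {x : X E} (hu : CD χ x) (hv : CD v x) :
    CD (fun y => χ y • v y) x := ContDiffWithinAt.smul hu hv

theorem dv_add {u v : X E → F} {x : X E} (hu : CD u x) (hv : CD v x) :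
    dv (fun y => u y + v y) x = dv u x + dv v x := fderivWithin_fun_add (ud x) hu.diff hv.diff

theorem dv_sub {u v : X E → F} {x : X E} (hu : CD u x) (hv : CD v x) :
    dv (fun y => u y - v y) x = dv u x - dv v x := fderivWithin_fun_sub (ud x) hu.diff hv.diff

theorem dv_smul {χ : X E → ℝ} {v : X E → F} {x : X E} (hu : CD χ x) (hv : CD v x) :
    dv (fun y => χ y • v y) x = χ x • dv v x + (dv χ x).smulRight (v x) := by
  have h1 := fderivWithin_fun_smul (ud x) hu.diff hv.diff
  rw [lf_coe, lf_coe] at h1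
  exact h1

end Pool.Agent.TH227.BM
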