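import Pool.Agent.TH227.BM.Code

/-!
Continuous convergence of families of smooth maps, together with the first derivative.
-/

set_option linter.unusedSectionVars false

open Set Filter Topology
open scoped ContDiff

namespace Pool.Agent.TH227.BM

variable {κ : Type} {E : Type} [NormedAddCommGroup E] [NormedSpace ℝ E] [Half E]
variable {F : Type} [NormedAddCommGroup F] [NormedSpace ℝ F]

theorem ev_ev {Z : Type} [TopologicalSpace Z] {l : Filter κ} {x : Z} {P : κ × Z → Prop}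
    (h : ∀ᶠ p in l ×ˢ 𝓝 x, P p) : ∀ᶠ p in l ×ˢ 𝓝 x, ∀ᶠ x' in 𝓝 p.2, P (p.1, x') := by
  rw [Filter.eventually_prod_iff] at h ⊢
  obtain ⟨pa, ha, pb, hb, h⟩ := h
  refine ⟨pa, ha, fun x' => ∀ᶠ x'' in 𝓝 x', pb x'', hb.eventually_nhds, ?_⟩
  intro k hk x' hx'
  filter_upwards [hx'] with x'' hx''
  exact h hk hx''

theorem ev_self {Z : Type} [TopologicalSpace Z] {l : Filter κ} {x : Z} {P : κ × Z → Prop}
    (h : ∀ᶠ p in l ×ˢ 𝓝 x, P p) : ∀ᶠ k in l, P (k, x) := by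
  rw [Filter.eventually_prod_iff] at h
  obtain ⟨pa, ha, pb, hb, h⟩ := h
  filter_upwards [ha] with k hk
  exact h hk hb.self_of_nhds

theorem ev_snd {Z : Type} [TopologicalSpace Z] {l : Filter κ} {x : Z} {P : Z → Prop}
    (h : ∀ᶠ y in 𝓝 x, P y) : ∀ᶠ p in l ×ˢ 𝓝 x, P p.2 :=
  (tendsto_snd (f := l) (g := 𝓝 x)).eventually h

theorem ev_fst {Z : Type} [TopologicalSpace Z] {l : Filter κ} {x : Z} {P : κ → Prop}
    (h : ∀ᶠ k in l, P k) : ∀ᶠ p in l ×ˢ 𝓝 x, P p.1 :=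
  (tendsto_fst (f := l) (g := 𝓝 x)).eventually h

/-- `u` is smooth in a neighbourhood of `x`. -/
def SN (u : X E → X E) (x : X E) : Prop := ∀ᶠ x' in 𝓝 x, CX u x'

theorem SN.self {u : X E → X E} {x : X E} (h : SN u x) : CX u x := h.self_of_nhds

theorem SN.ev {u : X E → X E} {x : X E} (h : SN u x) : ∀ᶠ x' in 𝓝 x, SN u x' :=
  Filter.Eventually.eventually_nhds h

theorem SN.congr {u v : X E → X E} {x : X E} (h : SN u x) (e : ∀ᶠ x' in 𝓝 x, u x' = v x') :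
    SN v x := by
  have e' : ∀ᶠ x' in 𝓝 x, ∀ᶠ x'' in 𝓝 x', u x'' = v x'' := e.eventually_nhds
  filter_upwards [h, e'] with x' h1 h2
  have h3 : u =ᶠ[𝓝 x'] v := h2
  exact h1.congr h3

theorem SN.diff {u : X E → X E} {x : X E} (h : SN u x) : CX u x := h.self

theorem SN.comp {u : X E → X E} {v : X E → X E} {x : X E} (hv : SN v (u x)) (hu : SN u x) :
    SN (v ∘ u) x := by
  have h1 := hu.self.continuousAt.tendsto.eventually hv
  filter_upwards [hu, h1] with x' h2 h3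
  exact h3.comp h2

theorem SN_id (x : X E) : SN (id : X E → X E) x := Filter.Eventually.of_forall fun _ => CX_id _

/-- Smoothness of functions in a neighbourhood of `x`. -/
def SF (u : X E → F) (x : X E) : Prop := ∀ᶠ x' in 𝓝 x, CD u x'

theorem SF.self {u : X E → F} {x : X E} (h : SF u x) : CD u x := h.self_of_nhds

theorem SN.sf {u : X E → X E} {x : X E} (h : SN u x) : SF (cf u) x := by
  filter_upwards [h] with y hy
  exact hy.1

theorem SF.congr {u v : X E → F} {x : X E} (h : SF u x) (e : ∀ᶠ x' in 𝓝 x, u x' = v x') :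
    SF v x := by
  have e' : ∀ᶠ x' in 𝓝 x, ∀ᶠ x'' in 𝓝 x', u x'' = v x'' := e.eventually_nhds
  filter_upwards [h, e'] with x' h1 h2
  have h3 : u =ᶠ[𝓝 x'] v := h2
  exact h1.congr h3

theorem SF.add {u v : X E → F} {x : X E} (hu : SF u x) (hv : SF v x) :
    SF (fun y => u y + v y) x := by
  filter_upwards [hu, hv] with y h1 h2
  exact h1.add h2

theorem SF.sub {u v : X E → F} {x : X E} (hu : SF u x) (hv : SF v x) :
    SF (fun y => u y - v y) x := by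
  filter_upwards [hu, hv] with y h1 h2
  exact h1.sub h2

theorem SF.smul {χ : X E → ℝ} {v : X E → F} {x : X E} (hu : SF χ x) (hv : SF v x) :
    SF (fun y => χ y • v y) x := by
  filter_upwards [hu, hv] with y h1 h2
  exact h1.smul h2

/-- Continuous convergence at `x`, with smoothness and convergence of the derivatives. -/
def CF (l : Filter κ) (u : κ → X E → F) (u₀ : X E → F) (x : X E) : Prop :=
  (∀ᶠ p in l ×ˢ 𝓝 x, CD (u p.1) p.2) ∧ SF u₀ x ∧
    Tendsto (fun p : κ × X E => (u p.1 p.2, dv (u p.1) p.2)) (l ×ˢ 𝓝 x)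
      (𝓝 (u₀ x, dv u₀ x))

theorem CF.val {l : Filter κ} {u : κ → X E → F} {u₀ : X E → F} {x : X E} (h : CF l u u₀ x) :
    Tendsto (fun p : κ × X E => u p.1 p.2) (l ×ˢ 𝓝 x) (𝓝 (u₀ x)) :=
  (continuous_fst.tendsto _).comp h.2.2

theorem CF.der {l : Filter κ} {u : κ → X E → F} {u₀ : X E → F} {x : X E} (h : CF l u u₀ x) :
    Tendsto (fun p : κ × X E => dv (u p.1) p.2) (l ×ˢ 𝓝 x) (𝓝 (dv u₀ x)) :=
  (continuous_snd.tendsto _).comp h.2.2

theorem CF.mk' {l : Filter κ} {u : κ → X E → F} {u₀ : X E → F} {x : X E}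
    (h1 : ∀ᶠ p in l ×ˢ 𝓝 x, CD (u p.1) p.2) (h2 : SF u₀ x)
    (h3 : Tendsto (fun p : κ × X E => u p.1 p.2) (l ×ˢ 𝓝 x) (𝓝 (u₀ x)))
    (h4 : Tendsto (fun p : κ × X E => dv (u p.1) p.2) (l ×ˢ 𝓝 x) (𝓝 (dv u₀ x))) :
    CF l u u₀ x :=
  ⟨h1, h2, h3.prodMk_nhds h4⟩

theorem CF_const {l : Filter κ} {u₀ : X E → F} {x : X E} (h : SF u₀ x) :
    CF l (fun _ => u₀) u₀ x := by
  refine CF.mk' (ev_snd h) h ?_ ?_
  · exact h.self.continuousAt.tendsto.comp tendsto_snd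
  · exact h.self.dv.tendsto.comp tendsto_snd

theorem CF.congr {l : Filter κ} {u v : κ → X E → F} {u₀ v₀ : X E → F} {x : X E} (h : CF l u u₀ x)
    (h1 : ∀ᶠ p in l ×ˢ 𝓝 x, u p.1 p.2 = v p.1 p.2) (h2 : ∀ᶠ x' in 𝓝 x, u₀ x' = v₀ x') :
    CF l v v₀ x := by
  have h1' := ev_ev h1
  have e1 : ∀ᶠ p in l ×ˢ 𝓝 x, u p.1 =ᶠ[𝓝 p.2] v p.1 := h1'
  have e2 : u₀ =ᶠ[𝓝 x] v₀ := h2
  refine CF.mk' ?_ (h.2.1.congr h2) ?_ ?_
  · filter_upwards [h.1, e1] with p hp he
    exact hp.congr he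
  · rw [← e2.self_of_nhds]
    refine h.val.congr' ?_
    exact h1
  · rw [← dv_congr e2]
    refine h.der.congr' ?_
    filter_upwards [e1] with p hp
    exact dv_congr hp

theorem CF.add {l : Filter κ} {u v : κ → X E → F} {u₀ v₀ : X E → F} {x : X E} (hu : CF l u u₀ x)
    (hv : CF l v v₀ x) : CF l (fun k y => u k y + v k y) (fun y => u₀ y + v₀ y) x := by
  refine CF.mk' ?_ (hu.2.1.add hv.2.1) (hu.val.add hv.val) ?_
  · filter_upwards [hu.1, hv.1] with p h1 h2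
    exact h1.add h2
  · rw [dv_add hu.2.1.self hv.2.1.self]
    refine (hu.der.add hv.der).congr' ?_
    filter_upwards [hu.1, hv.1] with p h1 h2
    exact (dv_add h1 h2).symm

theorem CF.sub {l : Filter κ} {u v : κ → X E → F} {u₀ v₀ : X E → F} {x : X E} (hu : CF l u u₀ x)
    (hv : CF l v v₀ x) : CF l (fun k y => u k y - v k y) (fun y => u₀ y - v₀ y) x := by
  refine CF.mk' ?_ (hu.2.1.sub hv.2.1) (hu.val.sub hv.val) ?_
  · filter_upwards [hu.1, hv.1] with p h1 h2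
    exact h1.sub h2
  · rw [dv_sub hu.2.1.self hv.2.1.self]
    refine (hu.der.sub hv.der).congr' ?_
    filter_upwards [hu.1, hv.1] with p h1 h2
    exact (dv_sub h1 h2).symm

theorem CF.smul {l : Filter κ} {χ : κ → X E → ℝ} {χ₀ : X E → ℝ} {v : κ → X E → F} {v₀ : X E → F}
    {x : X E} (hu : CF l χ χ₀ x) (hv : CF l v v₀ x) :
    CF l (fun k y => χ k y • v k y) (fun y => χ₀ y • v₀ y) x := by
  refine CF.mk' ?_ (hu.2.1.smul hv.2.1) (hu.val.smul hv.val) ?_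
  · filter_upwards [hu.1, hv.1] with p h1 h2
    exact h1.smul h2
  · rw [dv_smul hu.2.1.self hv.2.1.self]
    have h3 : Continuous (fun q : (E →L[ℝ] ℝ) × F => q.1.smulRight q.2) := by fun_prop
    have h4 := (h3.tendsto (dv χ₀ x, v₀ x)).comp (hu.der.prodMk_nhds hv.val)
    refine ((hu.val.smul hv.der).add h4).congr' ?_
    filter_upwards [hu.1, hv.1] with p h1 h2
    exact (dv_smul h1 h2).symm

/-- Continuous convergence at `x`, with smoothness and convergence of the derivatives. -/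
def CS (l : Filter κ) (u : κ → X E → X E) (u₀ : X E → X E) (x : X E) : Prop :=
  (∀ᶠ p in l ×ˢ 𝓝 x, CX (u p.1) p.2) ∧ SN u₀ x ∧
    Tendsto (fun p : κ × X E => (u p.1 p.2, dx (u p.1) p.2)) (l ×ˢ 𝓝 x)
      (𝓝 (u₀ x, dx u₀ x))

theorem CS.val {l : Filter κ} {u : κ → X E → X E} {u₀ : X E → X E} {x : X E} (h : CS l u u₀ x) :
    Tendsto (fun p : κ × X E => u p.1 p.2) (l ×ˢ 𝓝 x) (𝓝 (u₀ x)) :=
  (continuous_fst.tendsto _).comp h.2.2

theorem CS.der {l : Filter κ} {u : κ → X E → X E} {u₀ : X E → X E} {x : X E} (h : CS l u u₀ x) :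
    Tendsto (fun p : κ × X E => dx (u p.1) p.2) (l ×ˢ 𝓝 x) (𝓝 (dx u₀ x)) :=
  (continuous_snd.tendsto _).comp h.2.2

theorem CS.lift {l : Filter κ} {u : κ → X E → X E} {u₀ : X E → X E} {x : X E} (h : CS l u u₀ x) :
    Tendsto (fun p : κ × X E => (p.1, u p.1 p.2)) (l ×ˢ 𝓝 x) (l ×ˢ 𝓝 (u₀ x)) :=
  tendsto_fst.prodMk h.val

theorem CS.diff {l : Filter κ} {u : κ → X E → X E} {u₀ : X E → X E} {x : X E} (h : CS l u u₀ x) :
    ∀ᶠ p in l ×ˢ 𝓝 x, CX (u p.1) p.2 := h.1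

theorem CS.mk' {l : Filter κ} {u : κ → X E → X E} {u₀ : X E → X E} {x : X E}
    (h1 : ∀ᶠ p in l ×ˢ 𝓝 x, CX (u p.1) p.2) (h2 : SN u₀ x)
    (h3 : Tendsto (fun p : κ × X E => u p.1 p.2) (l ×ˢ 𝓝 x) (𝓝 (u₀ x)))
    (h4 : Tendsto (fun p : κ × X E => dx (u p.1) p.2) (l ×ˢ 𝓝 x) (𝓝 (dx u₀ x))) :
    CS l u u₀ x :=
  ⟨h1, h2, h3.prodMk_nhds h4⟩

theorem CS.congr {l : Filter κ} {u v : κ → X E → X E} {u₀ v₀ : X E → X E} {x : X E}
    (h : CS l u u₀ x)
    (h1 : ∀ᶠ p in l ×ˢ 𝓝 x, u p.1 p.2 = v p.1 p.2) (h2 : ∀ᶠ x' in 𝓝 x, u₀ x' = v₀ x') :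
    CS l v v₀ x := by
  have h1' := ev_ev h1
  have e1 : ∀ᶠ p in l ×ˢ 𝓝 x, u p.1 =ᶠ[𝓝 p.2] v p.1 := h1'
  have e2 : u₀ =ᶠ[𝓝 x] v₀ := h2
  refine CS.mk' ?_ (h.2.1.congr h2) ?_ ?_
  · filter_upwards [h.1, e1] with p hp he
    exact hp.congr he
  · rw [← e2.self_of_nhds]
    refine h.val.congr' ?_
    exact h1
  · rw [← dx_congr e2]
    refine h.der.congr' ?_
    filter_upwards [e1] with p hp
    exact dx_congr hp

theorem CS.comp {l : Filter κ} {u : κ → X E → X E} {u₀ : X E → X E} {x : X E}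
    {v : κ → X E → X E} {v₀ : X E → X E} (hv : CS l v v₀ (u₀ x)) (hu : CS l u u₀ x) :
    CS l (fun k => v k ∘ u k) (v₀ ∘ u₀) x := by
  have hL := hu.lift
  refine CS.mk' ?_ (hv.2.1.comp hu.2.1) (hv.val.comp hL) ?_
  · filter_upwards [hu.1, hL.eventually hv.1] with p h1 h2
    exact h2.comp h1
  · have h1 : dx (v₀ ∘ u₀) x = (dx v₀ (u₀ x)).comp (dx u₀ x) :=
      dx_comp hv.2.1.diff hu.2.1.diff
    rw [h1]
    have h2 : Tendsto (fun p : κ × X E => (dx (v p.1) (u p.1 p.2)).comp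
        (dx (u p.1) p.2)) (l ×ˢ 𝓝 x)
        (𝓝 ((dx v₀ (u₀ x)).comp (dx u₀ x))) := by
      have h3 : Continuous (fun q : (E →L[ℝ] E) × (E →L[ℝ] E) => q.1.comp q.2) :=
        continuous_fst.clm_comp continuous_snd
      have h4 := (h3.tendsto (dx v₀ (u₀ x), dx u₀ x)).comp
        ((hv.der.comp hL).prodMk_nhds hu.der)
      exact h4
    refine h2.congr' ?_
    filter_upwards [hu.diff, hL.eventually hv.diff] with p h3 h4
    exact (dx_comp h4 h3).symm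

theorem CS_const {l : Filter κ} {u₀ : X E → X E} {x : X E} (h : SN u₀ x) :
    CS l (fun _ => u₀) u₀ x := by
  refine CS.mk' (ev_snd h) h ?_ ?_
  · exact h.self.continuousAt.tendsto.comp tendsto_snd
  · have h2 : ContinuousAt (dx u₀) x := h.self.1.dv
    exact h2.tendsto.comp tendsto_snd

theorem CS_id {l : Filter κ} {x : X E} : CS l (fun _ => (id : X E → X E)) id x :=
  CS_const (SN_id x)

theorem CS.cf {l : Filter κ} {u : κ → X E → X E} {u₀ : X E → X E} {x : X E} (h : CS l u u₀ x) :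
    CF l (fun k => BM.cf (u k)) (BM.cf u₀) x := by
  refine CF.mk' ?_ h.2.1.sf ?_ h.der
  · filter_upwards [h.1] with p hp
    exact hp.1
  · exact (continuous_subtype_val.tendsto _).comp h.val

theorem CS_of_CF {l : Filter κ} {u : κ → X E → X E} {u₀ : X E → X E} {x : X E}
    (h : CF l (fun k => BM.cf (u k)) (BM.cf u₀) x)
    (h1 : ∀ᶠ p in l ×ˢ 𝓝 x, (bd (u p.1 p.2) ↔ bd p.2))
    (h2 : ∀ᶠ x' in 𝓝 x, (bd (u₀ x') ↔ bd x')) : CS l u u₀ x := by
  refine CS.mk' ?_ ?_ ?_ h.der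
  · filter_upwards [h.1, h1] with p a1 a2
    exact ⟨a1, a2⟩
  · filter_upwards [h.2.1, h2] with p a1 a2
    exact ⟨a1, a2⟩
  · rw [Topology.IsEmbedding.subtypeVal.tendsto_nhds_iff]
    exact h.val

/-! ### Convex combinations -/

/-- Convex combination. -/
noncomputable def mix (t : ℝ) (y y' : X E) : X E := rt ((y : E) + t • ((y' : E) - y))

theorem mix_lam (t : ℝ) (y y' : X E) : Half.lam ((y : E) + t • ((y' : E) - y)) =
    (1 - t) * Half.lam (y : E) + t * Half.lam (y' : E) := by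
  rw [map_add, map_smul, map_sub, smul_eq_mul]
  ring

theorem mix_coe {t : ℝ} (h0 : 0 ≤ t) (h1 : t ≤ 1) (y y' : X E) :
    (mix t y y' : E) = (y : E) + t • ((y' : E) - y) := by
  unfold mix
  rw [rt_of]
  rw [mix_lam]
  have h2 := y.2
  have h3 := y'.2
  have h4 : 0 ≤ 1 - t := by linarith
  positivity

theorem mix_zero (y y' : X E) : mix 0 y y' = y := by
  apply Subtype.ext
  rw [mix_coe le_rfl zero_le_one, zero_smul, add_zero]

theorem mix_one (y y' : X E) : mix 1 y y' = y' := by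
  apply Subtype.ext
  rw [mix_coe zero_le_one le_rfl, one_smul]
  abel

theorem mix_self {t : ℝ} (h0 : 0 ≤ t) (h1 : t ≤ 1) (y : X E) : mix t y y = y := by
  apply Subtype.ext
  rw [mix_coe h0 h1, sub_self, smul_zero, add_zero]

theorem bd_mix {t : ℝ} (h0 : 0 ≤ t) (h1 : t ≤ 1) {y y' : X E} (h : bd y' ↔ bd y) :
    bd (mix t y y') ↔ bd y := by
  unfold bd at h ⊢
  rw [mix_coe h0 h1, mix_lam]
  have h2 := y.2
  have h3 := y'.2
  have h4 : 0 ≤ 1 - t := by linarith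
  constructor
  · intro h5
    have h6 : (1 - t) * Half.lam (y : E) = 0 := by nlinarith [mul_nonneg h4 h2, mul_nonneg h0 h3]
    have h7 : t * Half.lam (y' : E) = 0 := by nlinarith [mul_nonneg h4 h2, mul_nonneg h0 h3]
    rcases mul_eq_zero.1 h6 with h8 | h8
    · have h9 : t ≠ 0 := by
        intro h10
        rw [h10] at h8
        norm_num at h8
      exact h.1 ((mul_eq_zero.1 h7).resolve_left h9)
    · exact h8
  · intro h5
    rw [h5, h.2 h5]
    ring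

/-- Cutoff values. -/
def Cut (χ : E → ℝ) : Prop := ContDiff ℝ ∞ χ ∧ ∀ y, 0 ≤ χ y ∧ χ y ≤ 1

theorem Cut.sf {χ : E → ℝ} (h : Cut χ) (x : X E) : SF (fun y : X E => χ y) x :=
  Filter.Eventually.of_forall fun _ => CD_of h.1.contDiffAt

theorem CS_mix {l : Filter κ} {χ : E → ℝ} (hχ : Cut χ) {f : κ → X E → X E} {x : X E}
    (hf : CS l f id x) : CS l (fun k y => mix (χ y) y (f k y)) id x := by
  refine CS_of_CF ?_ ?_ ?_
  · have h1 := CF.add (CS_id (l := l) (x := x)).cf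
      ((CF_const (l := l) (hχ.sf x)).smul (hf.cf.sub (CS_id (l := l) (x := x)).cf))
    refine h1.congr ?_ ?_
    · exact Filter.Eventually.of_forall fun p => (mix_coe (hχ.2 _).1 (hχ.2 _).2 _ _).symm
    · exact Filter.Eventually.of_forall fun p => by simp
  · filter_upwards [hf.1] with p hp
    exact bd_mix (hχ.2 _).1 (hχ.2 _).2 hp.2
  · exact Filter.Eventually.of_forall fun _ => Iff.rfl

end Pool.Agent.TH227.BM
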