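import Pool.Agent.TH227.BM.Conv

/-!
The inverse function theorem on a half-space, for maps preserving the boundary.
-/

set_option linter.unusedSectionVars false

open Set Filter Topology
open scoped ContDiff

namespace Pool.Agent.TH227.BM

variable {E : Type} [NormedAddCommGroup E] [NormedSpace ℝ E] [Half E]
variable {F : Type} [NormedAddCommGroup F] [NormedSpace ℝ F]

/-- Negative part of the height. -/
noncomputable def mn (z : E) : ℝ := min (Half.lam z) 0

/-- Projection onto the half-space. -/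
noncomputable def pj (z : E) : E := z - mn z • Half.e

/-- Reflection into the half-space. -/
noncomputable def rf (z : E) : E := z - (2 * mn z) • Half.e

theorem lam_pj (z : E) : Half.lam (pj z) = Half.lam z - mn z := by
  unfold pj
  rw [map_sub, map_smul, Half.lam_e, smul_eq_mul, mul_one]

theorem lam_rf (z : E) : Half.lam (rf z) = Half.lam z - 2 * mn z := by
  unfold rf
  rw [map_sub, map_smul, Half.lam_e, smul_eq_mul, mul_one]

theorem pj_mem (z : E) : 0 ≤ Half.lam (pj z) := by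
  rw [lam_pj]
  have := min_le_left (Half.lam z) 0
  unfold mn
  linarith

theorem rf_mem (z : E) : 0 ≤ Half.lam (rf z) := by
  rw [lam_rf]
  unfold mn
  rcases le_total (Half.lam z) 0 with h | h
  · rw [min_eq_left h]
    linarith
  · rw [min_eq_right h]
    linarith

theorem pj_of {z : E} (h : 0 ≤ Half.lam z) : pj z = z := by
  unfold pj mn
  rw [min_eq_right h, zero_smul, sub_zero]

theorem rf_of {z : E} (h : 0 ≤ Half.lam z) : rf z = z := by
  unfold rf mn
  rw [min_eq_right h, mul_zero, zero_smul, sub_zero]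

theorem pj_rf (z : E) : (2 : ℝ) • pj z - rf z = z := by
  unfold pj rf
  module

theorem mn_lip (z w : E) : |mn z - mn w| ≤ ‖(Half.lam : E →L[ℝ] ℝ)‖ * ‖z - w‖ := by
  have h1 : |mn z - mn w| ≤ |Half.lam z - Half.lam w| := by
    unfold mn
    have := abs_min_sub_min_le_max (Half.lam z) 0 (Half.lam w) 0
    simpa using this
  refine h1.trans ?_
  rw [← map_sub]
  exact (Half.lam (E := E)).le_opNorm _

theorem pj_lip (z w : E) :
    ‖pj z - pj w‖ ≤ (1 + ‖(Half.lam : E →L[ℝ] ℝ)‖ * ‖(Half.e : E)‖) * ‖z - w‖ := by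
  have h1 : pj z - pj w = (z - w) - (mn z - mn w) • Half.e := by
    unfold pj
    module
  rw [h1]
  have h2 := norm_sub_le (z - w) ((mn z - mn w) • (Half.e : E))
  rw [norm_smul, Real.norm_eq_abs] at h2
  have h3 := mul_le_mul_of_nonneg_right (mn_lip z w) (norm_nonneg (Half.e : E))
  nlinarith

theorem rf_lip (z w : E) :
    ‖rf z - rf w‖ ≤ (1 + 2 * (‖(Half.lam : E →L[ℝ] ℝ)‖ * ‖(Half.e : E)‖)) * ‖z - w‖ := by
  have h1 : rf z - rf w = (z - w) - (2 * (mn z - mn w)) • Half.e := by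
    unfold rf
    module
  rw [h1]
  have h2 := norm_sub_le (z - w) ((2 * (mn z - mn w)) • (Half.e : E))
  rw [norm_smul, Real.norm_eq_abs, abs_mul, abs_two] at h2
  have h3 := mul_le_mul_of_nonneg_right (mn_lip z w) (norm_nonneg (Half.e : E))
  nlinarith

/-- The constant of the extension by reflection. -/
noncomputable def cst (E : Type) [NormedAddCommGroup E] [NormedSpace ℝ E] [Half E] : ℝ :=
  2 * (1 + ‖(Half.lam : E →L[ℝ] ℝ)‖ * ‖(Half.e : E)‖) +
    (1 + 2 * (‖(Half.lam : E →L[ℝ] ℝ)‖ * ‖(Half.e : E)‖))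

theorem cst_pos : 0 < cst E := by
  unfold cst
  have h1 := norm_nonneg (Half.lam : E →L[ℝ] ℝ)
  have h2 := norm_nonneg (Half.e : E)
  positivity

/-- Extension by reflection. -/
noncomputable def ext (u : X E → X E) (z : E) : E :=
  (2 : ℝ) • lf (cf u) (pj z) - lf (cf u) (rf z)

theorem ext_of {u : X E → X E} {z : E} (h : 0 ≤ Half.lam z) : ext u z = u ⟨z, h⟩ := by
  unfold ext
  rw [pj_of h, rf_of h]
  have h1 : lf (cf u) z = u ⟨z, h⟩ := lf_cf u ⟨z, h⟩
  rw [h1]
  module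

theorem ext_coe (u : X E → X E) (x : X E) : ext u (x : E) = u x := ext_of x.2

theorem ext_approx {u : X E → X E} {A : E →L[ℝ] E} {c : ℝ} {z w : E}
    (h1 : ‖lf (cf u) (pj z) - lf (cf u) (pj w) - A (pj z - pj w)‖ ≤ c * ‖pj z - pj w‖)
    (h2 : ‖lf (cf u) (rf z) - lf (cf u) (rf w) - A (rf z - rf w)‖ ≤ c * ‖rf z - rf w‖)
    (hc : 0 ≤ c) : ‖ext u z - ext u w - A (z - w)‖ ≤ c * cst E * ‖z - w‖ := by
  have e1 : ext u z - ext u w - A (z - w) =
      (2 : ℝ) • (lf (cf u) (pj z) - lf (cf u) (pj w) - A (pj z - pj w)) -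
        (lf (cf u) (rf z) - lf (cf u) (rf w) - A (rf z - rf w)) := by
    have h3 : z - w = (2 : ℝ) • (pj z - pj w) - (rf z - rf w) := by
      conv_lhs => rw [← pj_rf z, ← pj_rf w]
      module
    rw [h3, map_sub, map_smul]
    unfold ext
    module
  rw [e1]
  have h3 := norm_sub_le
    ((2 : ℝ) • (lf (cf u) (pj z) - lf (cf u) (pj w) - A (pj z - pj w)))
    (lf (cf u) (rf z) - lf (cf u) (rf w) - A (rf z - rf w))
  rw [norm_smul, Real.norm_eq_abs, abs_two] at h3
  have h4 := mul_le_mul_of_nonneg_left (pj_lip z w) hc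
  have h5 := mul_le_mul_of_nonneg_left (rf_lip z w) hc
  have h6 : c * cst E * ‖z - w‖ =
      2 * (c * ((1 + ‖(Half.lam : E →L[ℝ] ℝ)‖ * ‖(Half.e : E)‖) * ‖z - w‖)) +
        c * ((1 + 2 * (‖(Half.lam : E →L[ℝ] ℝ)‖ * ‖(Half.e : E)‖)) * ‖z - w‖) := by
    unfold cst
    ring
  rw [h6]
  linarith

theorem strictH {u : X E → X E} {x : X E} (hu : SN u x) {c : ℝ} (hc : 0 < c) :
    ∃ r > 0, ∀ a ∈ Metric.ball (x : E) r ∩ Hs E, ∀ b ∈ Metric.ball (x : E) r ∩ Hs E,
      ‖lf (cf u) a - lf (cf u) b - dx u x (a - b)‖ ≤ c * ‖a - b‖ := by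
  have h1 : ∀ᶠ y in 𝓝 x, ‖dx u y - dx u x‖ ≤ c := by
    have h2 : Tendsto (fun y => ‖dx u y - dx u x‖) (𝓝 x) (𝓝 ‖dx u x - dx u x‖) := by
      have h3 : Tendsto (dx u) (𝓝 x) (𝓝 (dx u x)) := hu.self.1.dv
      exact (h3.sub tendsto_const_nhds).norm
    rw [sub_self, norm_zero] at h2
    exact h2.eventually (ge_mem_nhds hc)
  obtain ⟨r, hr, hball⟩ := Metric.mem_nhds_iff.1 (Filter.inter_mem hu h1)
  refine ⟨r, hr, ?_⟩
  intro a ha b hb
  refine Convex.norm_image_sub_le_of_norm_hasFDerivWithin_le' (f' := fun z => dx u (rt z))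
    (s := Metric.ball (x : E) r ∩ Hs E) ?_ ?_ ((convex_ball _ _).inter Hs_convex) hb ha
  · rintro z ⟨hz1, hz2⟩
    have h3 : (⟨z, hz2⟩ : X E) ∈ Metric.ball x r := hz1
    have h4 := hball h3
    have h5 : rt z = ⟨z, hz2⟩ := rt_of hz2
    rw [h5]
    exact h4.1.1.diff.hasFDerivWithinAt.mono inter_subset_right
  · rintro z ⟨hz1, hz2⟩
    have h3 : (⟨z, hz2⟩ : X E) ∈ Metric.ball x r := hz1
    have h4 := hball h3
    have h5 : rt z = ⟨z, hz2⟩ := rt_of hz2
    rw [h5]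
    exact h4.2

theorem pj_cont : Continuous (pj : E → E) := by
  unfold pj mn
  fun_prop

theorem rf_cont : Continuous (rf : E → E) := by
  unfold rf mn
  fun_prop

theorem ext_strict {u : X E → X E} {x : X E} (hu : SN u x) :
    HasStrictFDerivAt (ext u) (dx u x) (x : E) := by
  rw [hasStrictFDerivAt_iff_isLittleO, Asymptotics.isLittleO_iff]
  intro c hc
  have hpos : 0 < c / cst E := div_pos hc cst_pos
  obtain ⟨r, hr, h1⟩ := strictH hu hpos
  have h2 : ∀ᶠ z in 𝓝 (x : E), pj z ∈ Metric.ball (x : E) r ∧ rf z ∈ Metric.ball (x : E) r := by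
    have h3 : Tendsto (pj : E → E) (𝓝 (x : E)) (𝓝 (x : E)) := by
      have := (pj_cont (E := E)).tendsto (x : E)
      rwa [pj_of x.2] at this
    have h4 : Tendsto (rf : E → E) (𝓝 (x : E)) (𝓝 (x : E)) := by
      have := (rf_cont (E := E)).tendsto (x : E)
      rwa [rf_of x.2] at this
    exact (h3.eventually (Metric.ball_mem_nhds _ hr)).and
      (h4.eventually (Metric.ball_mem_nhds _ hr))
  have h3 : ∀ᶠ p : E × E in 𝓝 ((x : E), (x : E)),
      (pj p.1 ∈ Metric.ball (x : E) r ∧ rf p.1 ∈ Metric.ball (x : E) r) ∧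
      (pj p.2 ∈ Metric.ball (x : E) r ∧ rf p.2 ∈ Metric.ball (x : E) r) :=
    ((continuous_fst.tendsto ((x : E), (x : E))).eventually h2).and
      ((continuous_snd.tendsto ((x : E), (x : E))).eventually h2)
  filter_upwards [h3] with p hp
  have h4 := ext_approx (u := u) (A := dx u x) (z := p.1) (w := p.2)
    (h1 _ ⟨hp.1.1, pj_mem _⟩ _ ⟨hp.2.1, pj_mem _⟩)
    (h1 _ ⟨hp.1.2, rf_mem _⟩ _ ⟨hp.2.2, rf_mem _⟩) hpos.le
  rwa [div_mul_cancel₀ c cst_pos.ne'] at h4

theorem ext_side {u : X E → X E} {x : X E} (hu : SN u x) :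
    ∀ᶠ z in 𝓝 (x : E), 0 ≤ Half.lam (ext u z) → 0 ≤ Half.lam z := by
  obtain ⟨r, hr, hball⟩ := Metric.mem_nhds_iff.1 hu
  have h3 : Tendsto (pj : E → E) (𝓝 (x : E)) (𝓝 (x : E)) := by
    have := (pj_cont (E := E)).tendsto (x : E)
    rwa [pj_of x.2] at this
  have h4 : Tendsto (rf : E → E) (𝓝 (x : E)) (𝓝 (x : E)) := by
    have := (rf_cont (E := E)).tendsto (x : E)
    rwa [rf_of x.2] at this
  filter_upwards [h3.eventually (Metric.ball_mem_nhds _ hr),
    h4.eventually (Metric.ball_mem_nhds _ hr)] with z a1 a2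
  intro hz
  by_contra hn
  push Not at hn
  have hm : mn z = Half.lam z := min_eq_left hn.le
  have b1 : (⟨pj z, pj_mem z⟩ : X E) ∈ Metric.ball x r := a1
  have b2 : (⟨rf z, rf_mem z⟩ : X E) ∈ Metric.ball x r := a2
  have c1 := (hball b1).2
  have c2 := (hball b2).2
  have d1 : bd (⟨pj z, pj_mem z⟩ : X E) := by
    show Half.lam (pj z) = 0
    rw [lam_pj, hm, sub_self]
  have d2 : ¬ bd (⟨rf z, rf_mem z⟩ : X E) := by
    rw [not_bd]
    show 0 < Half.lam (rf z)
    rw [lam_rf, hm]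
    linarith
  have e1 := c1.2 d1
  have e2 : 0 < Half.lam ((u ⟨rf z, rf_mem z⟩ : X E) : E) := not_bd.1 (fun h => d2 (c2.1 h))
  have f1 : lf (cf u) (pj z) = u ⟨pj z, pj_mem z⟩ := lf_cf u ⟨pj z, pj_mem z⟩
  have f2 : lf (cf u) (rf z) = u ⟨rf z, rf_mem z⟩ := lf_cf u ⟨rf z, rf_mem z⟩
  unfold ext at hz
  rw [map_sub, map_smul, f1, f2] at hz
  have e1' : Half.lam ((u ⟨pj z, pj_mem z⟩ : X E) : E) = 0 := e1
  rw [e1', smul_zero] at hz
  linarith

theorem le_of_lipH_aux {f : X E → F} {y : X E} (hf : CD f y) {L : E →L[ℝ] F} {C : ℝ}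
    (h : ∀ᶠ z : X E in 𝓝 y, ‖f z - f y - L ((z : E) - y)‖ ≤ C * ‖(z : E) - y‖) (v : E)
    (hv : 0 ≤ Half.lam v) : ‖(dv f y - L) v‖ ≤ C * ‖v‖ := by
  have hmaps : MapsTo (fun t : ℝ => (y : E) + t • v) (Ici 0) (Hs E) := by
    intro t ht
    have ht' : (0 : ℝ) ≤ t := ht
    show 0 ≤ Half.lam ((y : E) + t • v)
    rw [map_add, map_smul, smul_eq_mul]
    have := y.2
    positivity
  have hline : HasDerivWithinAt (fun t : ℝ => (y : E) + t • v) v (Ici 0) 0 := by
    have h1 : HasDerivAt (fun t : ℝ => (y : E) + t • v) ((1 : ℝ) • v) 0 :=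
      ((hasDerivAt_id (0 : ℝ)).smul_const v).const_add _
    rw [one_smul] at h1
    exact h1.hasDerivWithinAt
  have h0 : (y : E) + (0 : ℝ) • v = y := by simp
  have hD : HasFDerivWithinAt (lf f) (dv f y) (Hs E) ((y : E) + (0 : ℝ) • v) := by
    rw [h0]
    exact hf.diff.hasFDerivWithinAt
  have h1 : HasDerivWithinAt (fun t : ℝ => lf f ((y : E) + t • v)) (dv f y v) (Ici 0) 0 := by
    have h2 := HasFDerivWithinAt.comp_hasDerivWithinAt (f := fun t : ℝ => (y : E) + t • v)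
      (l := lf f) (0 : ℝ) hD hline hmaps
    exact h2
  have h2 : HasDerivWithinAt (fun t : ℝ => t • L v) (L v) (Ici 0) 0 := by
    have h3 : HasDerivAt (fun t : ℝ => t • L v) ((1 : ℝ) • L v) 0 :=
      (hasDerivAt_id (0 : ℝ)).smul_const (L v)
    rw [one_smul] at h3
    exact h3.hasDerivWithinAt
  have h3 := h1.sub h2
  rw [hasDerivWithinAt_iff_tendsto_slope] at h3
  have h4 : Ici (0 : ℝ) \ {0} = Ioi 0 := by
    ext t
    simp only [Set.mem_sdiff, mem_Ici, mem_singleton_iff, mem_Ioi]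
    exact ⟨fun h => lt_of_le_of_ne h.1 (Ne.symm h.2), fun h => ⟨h.le, h.ne'⟩⟩
  rw [h4] at h3
  have h5 : dv f y v - L v = (dv f y - L) v := rfl
  rw [h5] at h3
  refine le_of_tendsto h3.norm ?_
  have h6 : Tendsto (fun t : ℝ => rt ((y : E) + t • v)) (𝓝[>] 0) (𝓝 y) := by
    rw [Topology.IsEmbedding.subtypeVal.tendsto_nhds_iff]
    have h7 : Tendsto (fun t : ℝ => (y : E) + t • v) (𝓝[>] 0) (𝓝 (y : E)) := by
      have h8 : Continuous (fun t : ℝ => (y : E) + t • v) := by fun_prop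
      have h9 := h8.tendsto 0
      simp only [zero_smul, add_zero] at h9
      exact h9.mono_left nhdsWithin_le_nhds
    refine h7.congr' ?_
    filter_upwards [self_mem_nhdsWithin] with t ht
    have ht' : (0 : ℝ) < t := ht
    show _ = ((rt ((y : E) + t • v) : X E) : E)
    rw [rt_of (hmaps ht'.le)]
  filter_upwards [h6.eventually h, self_mem_nhdsWithin] with t ht ht0
  have ht' : (0 : ℝ) < t := ht0
  have h7 := rt_of (hmaps ht'.le)
  rw [h7] at ht
  have h8 : lf f ((y : E) + t • v) = f ⟨(y : E) + t • v, hmaps ht'.le⟩ := by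
    unfold lf
    rw [h7]
  have h9 : slope (fun t : ℝ => lf f ((y : E) + t • v) - t • L v) 0 t =
      t⁻¹ • (f ⟨(y : E) + t • v, hmaps ht'.le⟩ - f y - L ((y : E) + t • v - y)) := by
    rw [slope_def_module, h8, h0, lf_coe, zero_smul, sub_zero, sub_zero]
    congr 1
    rw [add_sub_cancel_left, map_smul]
    abel
  show ‖slope (fun t : ℝ => lf f ((y : E) + t • v) - t • L v) 0 t‖ ≤ _
  rw [h9, norm_smul, Real.norm_eq_abs, abs_of_pos (inv_pos.2 ht')]
  have h10 : ‖(y : E) + t • v - y‖ = t * ‖v‖ := by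
    rw [add_sub_cancel_left, norm_smul, Real.norm_eq_abs, abs_of_pos ht']
  have ht2 : ‖f ⟨(y : E) + t • v, hmaps ht'.le⟩ - f y - L ((y : E) + t • v - y)‖ ≤
      C * (t * ‖v‖) := by
    rw [← h10]
    exact ht
  calc t⁻¹ * ‖f ⟨(y : E) + t • v, hmaps ht'.le⟩ - f y - L ((y : E) + t • v - y)‖ ≤
      t⁻¹ * (C * (t * ‖v‖)) := mul_le_mul_of_nonneg_left ht2 (inv_pos.2 ht').le
    _ = C * ‖v‖ := by field_simp

theorem le_of_lipH {f : X E → F} {y : X E} (hf : CD f y) {L : E →L[ℝ] F} {C : ℝ} (hC : 0 ≤ C)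
    (h : ∀ᶠ z : X E in 𝓝 y, ‖f z - f y - L ((z : E) - y)‖ ≤ C * ‖(z : E) - y‖) :
    ‖dv f y - L‖ ≤ C := by
  refine ContinuousLinearMap.opNorm_le_bound _ hC fun v => ?_
  rcases le_total 0 (Half.lam v) with hv | hv
  · exact le_of_lipH_aux hf h v hv
  · have h1 := le_of_lipH_aux hf h (-v) (by rw [map_neg]; linarith)
    rwa [map_neg, norm_neg, norm_neg] at h1

/-- Smoothness of an inverse. -/
theorem inv_smooth [CompleteSpace E] {f g : E → E} {O : Set E} (hO : IsOpen O)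
    (hg : ContinuousOn g (O ∩ Hs E)) (hm : MapsTo g (O ∩ Hs E) (Hs E))
    (hfg : ∀ y ∈ O ∩ Hs E, f (g y) = y)
    (hf : ∀ y ∈ O ∩ Hs E, ContDiffWithinAt ℝ ∞ f (Hs E) (g y))
    (hi : ∀ y ∈ O ∩ Hs E, (fderivWithin ℝ f (Hs E) (g y)).IsInvertible) :
    ContDiffOn ℝ ∞ g (O ∩ Hs E) := by
  have hud : UniqueDiffOn ℝ (O ∩ Hs E) := by
    rw [inter_comm]
    exact Hs_ud.inter hO
  have hder : ∀ y ∈ O ∩ Hs E, HasFDerivWithinAt g
      (ContinuousLinearMap.inverse (fderivWithin ℝ f (Hs E) (g y))) (O ∩ Hs E) y := by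
    intro y hy
    obtain ⟨A, hA⟩ := hi y hy
    rw [← hA, ContinuousLinearMap.inverse_equiv]
    refine HasFDerivWithinAt.of_local_left_inverse (f := f) (t := Hs E) ?_ ?_ hy ?_
    · refine tendsto_nhdsWithin_of_tendsto_nhds_of_eventually_within _ (hg y hy) ?_
      filter_upwards [self_mem_nhdsWithin] with z hz
      exact hm hz
    · rw [hA]
      exact ((hf y hy).differentiableWithinAt (by simp)).hasFDerivWithinAt
    · filter_upwards [self_mem_nhdsWithin] with z hz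
      exact hfg z hz
  rw [contDiffOn_infty]
  intro n
  induction n with
  | zero =>
    have : ((0 : ℕ) : WithTop ℕ∞) = 0 := rfl
    rw [this, contDiffOn_zero]
    exact hg
  | succ n ih =>
    have hn : ((n + 1 : ℕ) : WithTop ℕ∞) = (n : WithTop ℕ∞) + 1 := by push_cast; rfl
    rw [hn, contDiffOn_succ_iff_fderivWithin hud]
    refine ⟨fun y hy => (hder y hy).differentiableWithinAt, ?_, ?_⟩
    · intro h
      exact absurd h (by simp)
    · have heq : ∀ y ∈ O ∩ Hs E, fderivWithin ℝ g (O ∩ Hs E) y =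
          ContinuousLinearMap.inverse (fderivWithin ℝ f (Hs E) (g y)) := fun y hy =>
        (hder y hy).fderivWithin (hud y hy)
      refine ContDiffOn.congr ?_ heq
      intro y hy
      obtain ⟨A, hA⟩ := hi y hy
      have h1 : ContDiffWithinAt ℝ n (fderivWithin ℝ f (Hs E)) (Hs E) (g y) :=
        (hf y hy).fderivWithin_right Hs_ud (by
          have : ((n : WithTop ℕ∞) + 1) = ((n + 1 : ℕ) : WithTop ℕ∞) := by push_cast; rfl
          rw [this]
          exact_mod_cast le_top) (hm hy)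
      have h2 : ContDiffWithinAt ℝ n (fun z => fderivWithin ℝ f (Hs E) (g z)) (O ∩ Hs E) y :=
        ContDiffWithinAt.comp y h1 (ih y hy) hm
      have h3 : ContDiffAt ℝ n (ContinuousLinearMap.inverse : (E →L[ℝ] E) → E →L[ℝ] E)
          (fderivWithin ℝ f (Hs E) (g y)) := by
        rw [← hA]
        exact contDiffAt_map_inverse A
      exact ContDiffAt.comp_contDiffWithinAt y h3 h2

theorem isInvertible_nhds [CompleteSpace E] {A : E →L[ℝ] E} (h : A.IsInvertible) :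
    ∀ᶠ B in 𝓝 A, B.IsInvertible := by
  obtain ⟨A', rfl⟩ := h
  filter_upwards [A'.nhds] with B hB
  obtain ⟨B', rfl⟩ := hB
  exact ⟨B', rfl⟩

theorem SN.fderiv_tendsto {u : X E → X E} {x : X E} (h : SN u x) :
    Tendsto (dx u) (𝓝 x) (𝓝 (dx u x)) := h.self.1.dv

theorem isInvertible_of_inv {u v : X E → X E} {x : X E} (hu : SN u x) (hv : SN v (u x))
    (h1 : ∀ᶠ x' in 𝓝 x, v (u x') = x') (h2 : ∀ᶠ y in 𝓝 (u x), u (v y) = y) :
    (dx u x).IsInvertible ∧ (dx v (u x)).IsInvertible := by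
  have hx : v (u x) = x := h1.self_of_nhds
  have hu' : SN u (v (u x)) := by rw [hx]; exact hu
  have e1 : (dx v (u x)).comp (dx u x) = ContinuousLinearMap.id ℝ E := by
    rw [← dx_comp hv.diff hu.diff]
    have : (v ∘ u) =ᶠ[𝓝 x] id := h1
    rw [dx_congr this, dx_id]
  have e2 : (dx u x).comp (dx v (u x)) = ContinuousLinearMap.id ℝ E := by
    have h3 := dx_comp hu'.diff hv.diff
    rw [hx] at h3
    rw [← h3]
    have : (u ∘ v) =ᶠ[𝓝 (u x)] id := h2
    rw [dx_congr this, dx_id]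
  have e1' : ∀ w, dx v (u x) (dx u x w) = w := fun w =>
    congrArg (fun f : E →L[ℝ] E => f w) e1
  have e2' : ∀ w, dx u x (dx v (u x) w) = w := fun w =>
    congrArg (fun f : E →L[ℝ] E => f w) e2
  exact ⟨⟨ContinuousLinearEquiv.equivOfInverse _ _ e1' e2', rfl⟩,
    ⟨ContinuousLinearEquiv.equivOfInverse _ _ e2' e1', rfl⟩⟩

/-- Local inverse of a smooth map with invertible derivative. -/
theorem exists_local_inverse [CompleteSpace E] {u : X E → X E} {x : X E} (hu : SN u x)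
    (h : (dx u x).IsInvertible) :
    ∃ v : X E → X E, SN v (u x) ∧ v (u x) = x ∧ (∀ᶠ x' in 𝓝 x, v (u x') = x') ∧
      (∀ᶠ y in 𝓝 (u x), u (v y) = y) ∧ (dx v (u x)).IsInvertible := by
  obtain ⟨A, hA⟩ := h
  have hs : HasStrictFDerivAt (ext u) (A : E →L[ℝ] E) (x : E) := by
    rw [hA]
    exact ext_strict hu
  set P := hs.toOpenPartialHomeomorph (ext u) with hP
  have hPu : ∀ y, P y = ext u y := fun y => rfl
  have hxs : (x : E) ∈ P.source := hs.mem_toOpenPartialHomeomorph_source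
  have hxt : ext u x ∈ P.target := P.map_source hxs
  have hux : ext u x = (u x : E) := ext_coe u x
  have hsx : P.symm (ext u x) = x := P.left_inv hxs
  have hc : Tendsto P.symm (𝓝 (u x : E)) (𝓝 (x : E)) := by
    have := (P.continuousAt_symm hxt).tendsto
    rwa [hsx, hux] at this
  -- good points of the half-space
  have hgood : ∀ᶠ z in 𝓝 (x : E), z ∈ P.source ∧ (0 ≤ Half.lam (ext u z) → 0 ≤ Half.lam z) ∧
      ∀ hz : 0 ≤ Half.lam z, CX u ⟨z, hz⟩ ∧ (dx u ⟨z, hz⟩).IsInvertible := by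
    have h1 : ∀ᶠ y in 𝓝 x, CX u y ∧ (dx u y).IsInvertible :=
      hu.and (hu.fderiv_tendsto.eventually (isInvertible_nhds ⟨A, hA⟩))
    obtain ⟨r, hr, hball⟩ := Metric.mem_nhds_iff.1 h1
    filter_upwards [P.open_source.mem_nhds hxs, ext_side hu, Metric.ball_mem_nhds (x : E) hr]
      with z a1 a2 a3
    refine ⟨a1, a2, fun hz => ?_⟩
    have h2 : (⟨z, hz⟩ : X E) ∈ Metric.ball x r := a3
    exact hball h2
  have hev : ∀ᶠ y in 𝓝 (u x : E), y ∈ P.target ∧
      (0 ≤ Half.lam (ext u (P.symm y)) → 0 ≤ Half.lam (P.symm y)) ∧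
      ∀ hz : 0 ≤ Half.lam (P.symm y), CX u ⟨P.symm y, hz⟩ ∧
        (dx u ⟨P.symm y, hz⟩).IsInvertible := by
    rw [hux] at hxt
    filter_upwards [hc.eventually hgood, P.open_target.mem_nhds hxt] with y a1 a2
    exact ⟨a2, a1.2⟩
  obtain ⟨O, hOsub, hO, hxO⟩ := mem_nhds_iff.1 hev
  have hmem : ∀ y ∈ O ∩ Hs E, ∃ hz : 0 ≤ Half.lam (P.symm y), ext u (P.symm y) = y ∧
      ((u ⟨P.symm y, hz⟩ : X E) : E) = y := by
    rintro y ⟨hy, hyH⟩
    have h1 := hOsub hy
    have h2 : ext u (P.symm y) = y := P.right_inv h1.1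
    have h3 : 0 ≤ Half.lam (P.symm y) := h1.2.1 (by rw [h2]; exact hyH)
    refine ⟨h3, h2, ?_⟩
    rw [← ext_of h3, h2]
  have hsmooth : ContDiffOn ℝ ∞ P.symm (O ∩ Hs E) := by
    refine inv_smooth (f := lf (cf u)) hO ?_ ?_ ?_ ?_ ?_
    · exact P.continuousOn_symm.mono fun y hy => (hOsub hy.1).1
    · intro y hy
      obtain ⟨hz, _⟩ := hmem y hy
      exact hz
    · intro y hy
      obtain ⟨hz, _, h2⟩ := hmem y hy
      have h3 : lf (cf u) (P.symm y) = u ⟨P.symm y, hz⟩ := lf_cf u ⟨P.symm y, hz⟩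
      rw [h3, h2]
    · intro y hy
      obtain ⟨hz, _, h2⟩ := hmem y hy
      exact ((hOsub hy.1).2.2 hz).1.1
    · intro y hy
      obtain ⟨hz, _, h2⟩ := hmem y hy
      exact ((hOsub hy.1).2.2 hz).2
  set v : X E → X E := fun y => rt (P.symm y) with hv
  have hvc : ∀ y : X E, (y : E) ∈ O → (v y : E) = P.symm y := by
    intro y hy
    obtain ⟨hz, _⟩ := hmem y ⟨hy, y.2⟩
    show ((rt (P.symm (y : E)) : X E) : E) = _
    rw [rt_of hz]
  have huv : ∀ y : X E, (y : E) ∈ O → u (v y) = y := by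
    intro y hy
    obtain ⟨hz, _, h2⟩ := hmem y ⟨hy, y.2⟩
    apply Subtype.ext
    have h3 : v y = ⟨P.symm y, hz⟩ := Subtype.ext (hvc y hy)
    rw [h3, h2]
  have hON : ∀ᶠ y : X E in 𝓝 (u x), (y : E) ∈ O :=
    continuous_subtype_val.continuousAt.tendsto.eventually (hO.mem_nhds hxO)
  have hvx : v (u x) = x := by
    apply Subtype.ext
    rw [hvc _ hxO, ← hux, hsx]
  have hSN : SN v (u x) := by
    filter_upwards [hON] with y hy
    refine ⟨?_, ?_⟩
    · have h1 : ContDiffWithinAt ℝ ∞ P.symm (Hs E) (y : E) :=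
        (hsmooth y ⟨hy, y.2⟩).mono_of_mem_nhdsWithin
          (Filter.inter_mem (mem_nhdsWithin_of_mem_nhds (hO.mem_nhds hy)) self_mem_nhdsWithin)
      refine ContDiffWithinAt.congr_of_eventuallyEq h1 ?_ ?_
      · refine ev_coe.2 ?_
        have h2 : ∀ᶠ y' : X E in 𝓝 y, (y' : E) ∈ O :=
          continuous_subtype_val.continuousAt.tendsto.eventually (hO.mem_nhds hy)
        filter_upwards [h2] with y' hy'
        rw [lf_cf]
        exact hvc y' hy'
      · rw [lf_cf]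
        exact hvc y hy
    · have h1 := huv y hy
      obtain ⟨hz, _, h2⟩ := hmem y ⟨hy, y.2⟩
      have h3 : v y = ⟨P.symm y, hz⟩ := Subtype.ext (hvc y hy)
      have h4 := ((hOsub hy).2.2 hz).1.2
      rw [← h3, h1] at h4
      exact h4.symm
  have e1 : ∀ᶠ x' in 𝓝 x, v (u x') = x' := by
    have h1 : ∀ᶠ x' : X E in 𝓝 x, (x' : E) ∈ P.source :=
      continuous_subtype_val.continuousAt.tendsto.eventually (P.open_source.mem_nhds hxs)
    filter_upwards [h1, hu.self.continuousAt.tendsto.eventually hON] with y a1 a2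
    apply Subtype.ext
    rw [hvc _ a2, ← ext_coe u y]
    exact P.left_inv a1
  have e2 : ∀ᶠ y in 𝓝 (u x), u (v y) = y := by
    filter_upwards [hON] with y hy
    exact huv y hy
  exact ⟨v, hSN, hvx, e1, e2, (isInvertible_of_inv hu hSN e1 e2).2⟩

end Pool.Agent.TH227.BM
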