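import Pool.Agent.TH227.BM.Mfd

/-!
Borel measurability of the attached structure.
-/

set_option linter.unusedSectionVars false

open Set Filter Topology
open scoped ContDiff Manifold MeasureTheory

namespace Pool.Agent.TH227.BM

variable {E : Type} [NormedAddCommGroup E] [NormedSpace ℝ E] [Half E]

/-- The generating sets of the Borel structure on the space of codes: the conditions that a compact
set lies in a gluing domain, and that the value of a gluing map at a point lies in a Borel set. -/
def genC (E : Type) [NormedAddCommGroup E] [NormedSpace ℝ E] [Half E] : Set (Set (Code E)) :=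
  {A | ∃ (i j : ℕ) (S : Set (X E)), IsCompact S ∧ A = {c | S ⊆ c.V i j}} ∪
  {A | ∃ (i j : ℕ) (x : X E) (B : Set (X E)), MeasurableSet[borel (X E)] B ∧ A = {c | c.φ i j x ∈ B}}

/-- The Borel structure on the space of codes. -/
instance measC : MeasurableSpace (Code E) := MeasurableSpace.generateFrom (genC E)

theorem meas_compact (i j : ℕ) {S : Set (X E)} (hS : IsCompact S) :
    MeasurableSet {c : Code E | S ⊆ c.V i j} :=
  MeasurableSpace.measurableSet_generateFrom (Or.inl ⟨i, j, S, hS, rfl⟩)

theorem meas_val (i j : ℕ) (x : X E) {B : Set (X E)} (hB : MeasurableSet[borel (X E)] B) :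
    MeasurableSet {c : Code E | c.φ i j x ∈ B} :=
  MeasurableSpace.measurableSet_generateFrom (Or.inr ⟨i, j, x, B, hB, rfl⟩)

theorem meas_mem (i j : ℕ) (x : X E) : MeasurableSet {c : Code E | x ∈ c.V i j} := by
  have h := meas_compact (E := E) i j (S := {x}) isCompact_singleton
  simpa using h

theorem meas_phi (i j : ℕ) (x : X E) : Measurable[measC, borel (X E)] (fun c : Code E => c.φ i j x) := by
  intro B hB
  exact meas_val i j x hB

variable [FiniteDimensional ℝ E]

local instance : ProperSpace E := FiniteDimensional.proper_real E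

theorem cb_sub_cl (b : ℕ × ℕ × ℕ) : (cb b : Set (X E)) ⊆ closure (ob b) := by
  intro y hy
  set x : X E := TopologicalSpace.denseSeq (X E) b.2.1 with hx
  have hr : (0 : ℝ) < 1 / ((b.2.2 : ℝ) + 1) := by positivity
  have hy' : dist y x ≤ 1 / ((b.2.2 : ℝ) + 1) := hy
  have h1 : Tendsto (fun t : ℝ => mix t y x) (𝓝[Ioc 0 1] 0) (𝓝 y) := by
    rw [Topology.IsEmbedding.subtypeVal.tendsto_nhds_iff]
    have h2 : Tendsto (fun t : ℝ => (y : E) + t • ((x : E) - y)) (𝓝[Ioc 0 1] 0) (𝓝 (y : E)) := by
      have h8 : Continuous (fun t : ℝ => (y : E) + t • ((x : E) - y)) := by fun_prop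
      have h9 := h8.tendsto 0
      simp only [zero_smul, add_zero] at h9
      exact h9.mono_left nhdsWithin_le_nhds
    refine h2.congr' ?_
    filter_upwards [self_mem_nhdsWithin] with t ht
    exact (mix_coe ht.1.le ht.2 y x).symm
  have hne : (𝓝[Ioc (0 : ℝ) 1] 0).NeBot := by
    rw [nhdsWithin_Ioc_eq_nhdsGT (by norm_num : (0 : ℝ) < 1)]
    infer_instance
  refine mem_closure_of_tendsto h1 ?_
  filter_upwards [self_mem_nhdsWithin] with t ht
  show dist (mix t y x) x < _
  have h3 : dist (mix t y x) x = (1 - t) * dist y x := by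
    rw [Subtype.dist_eq, Subtype.dist_eq, mix_coe ht.1.le ht.2, dist_eq_norm, dist_eq_norm]
    have h4 : (y : E) + t • ((x : E) - y) - x = (1 - t) • ((y : E) - x) := by module
    rw [h4, norm_smul, Real.norm_eq_abs, abs_of_nonneg (by linarith [ht.2])]
  rw [h3]
  rcases (dist_nonneg (x := y) (y := x)).eq_or_lt with h5 | h5
  · rw [← h5, mul_zero]
    exact hr
  · have h6 : (1 - t) * dist y x < 1 * dist y x :=
      mul_lt_mul_of_pos_right (by linarith [ht.1]) h5
    linarith

/-- Density of the rational points in a rational ball. -/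
theorem cb_sub_closure (b : ℕ × ℕ × ℕ) :
    (cb b : Set (X E)) ⊆ closure (range (TopologicalSpace.denseSeq (X E)) ∩ ob b) := by
  have h1 : (ob b : Set (X E)) ⊆ closure (range (TopologicalSpace.denseSeq (X E)) ∩ ob b) := by
    have := (TopologicalSpace.denseRange_denseSeq (X E)).open_subset_closure_inter (ob_open (E := E) b)
    rwa [inter_comm] at this
  exact (cb_sub_cl b).trans (closure_minimal h1 isClosed_closure)

theorem exists_dense_near {b : ℕ × ℕ × ℕ} {x : X E} (hx : x ∈ (cb b : Set (X E))) {P : X E → Prop}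
    (h : ∀ᶠ y in 𝓝 x, P y) :
    ∃ n, TopologicalSpace.denseSeq (X E) n ∈ (ob b : Set (X E)) ∧ P (TopologicalSpace.denseSeq (X E) n) := by
  have h1 := mem_closure_iff_nhds.1 (cb_sub_closure b hx) _ h
  obtain ⟨y, hy, ⟨n, rfl⟩, hyb⟩ := h1
  exact ⟨n, hyb, hy⟩

theorem SA_meas (i j : ℕ) (b b₂ : ℕ × ℕ × ℕ) (n m : ℕ) :
    MeasurableSet (SA i j b b₂ n m : Set (Code E)) := by
  set D := TopologicalSpace.denseSeq (X E) with hD
  set L := TopologicalSpace.denseSeq (E →L[ℝ] E) n with hL
  have hset : (SA i j b b₂ n m : Set (Code E)) = {c : Code E | (cb b : Set (X E)) ⊆ c.V i j} ∩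
      ((⋂ k, {c : Code E | D k ∈ (ob b : Set (X E)) → c.φ i j (D k) ∈ (cb b₂ : Set (X E))}) ∩
      ⋂ k, ⋂ k', {c : Code E | D k ∈ (ob b : Set (X E)) → D k' ∈ (ob b : Set (X E)) →
        ‖(c.φ i j (D k) : E) - c.φ i j (D k') - L ((D k : E) - D k')‖ ≤
          1 / ((m : ℝ) + 1) * ‖(D k : E) - D k'‖}) := by
    ext c
    simp only [mem_inter_iff, mem_iInter, mem_ofPred_eq]
    constructor
    · rintro ⟨h1, h2, h3⟩
      exact ⟨h1, fun k hk => h2 _ (ob_sub_cb b hk),
        fun k k' hk hk' => h3 _ (ob_sub_cb b hk) _ (ob_sub_cb b hk')⟩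
    · rintro ⟨h1, h2, h3⟩
      have hcont : ∀ x ∈ (cb b : Set (X E)), ContinuousAt (c.φ i j) x := fun x hx =>
        (c.contDiffAt (h1 hx)).continuousAt
      have hcoe : ∀ x ∈ (cb b : Set (X E)), ContinuousAt (fun y => (c.φ i j y : E)) x :=
        fun x hx => continuous_subtype_val.continuousAt.comp (hcont x hx)
      refine ⟨h1, ?_, ?_⟩
      · intro x hx
        by_contra hn
        have h4 : ∀ᶠ y in 𝓝 x, c.φ i j y ∉ (cb b₂ : Set (X E)) :=
          (hcont x hx).eventually ((cb_compact b₂).isClosed.isOpen_compl.mem_nhds hn)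
        obtain ⟨k, hk, hk2⟩ := exists_dense_near hx h4
        exact hk2 (h2 k hk)
      · -- first one variable, then the other
        have h4 : ∀ k, D k ∈ (ob b : Set (X E)) → ∀ x ∈ (cb b : Set (X E)),
            ‖(c.φ i j x : E) - c.φ i j (D k) - L ((x : E) - D k)‖ ≤
              1 / ((m : ℝ) + 1) * ‖(x : E) - D k‖ := by
          intro k hk x hx
          by_contra hn
          rw [not_le] at hn
          have h5 : ∀ᶠ y : X E in 𝓝 x, 1 / ((m : ℝ) + 1) * ‖(y : E) - D k‖ <
              ‖(c.φ i j y : E) - c.φ i j (D k) - L ((y : E) - D k)‖ := by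
            have c1 : ContinuousAt (fun y : X E => 1 / ((m : ℝ) + 1) * ‖(y : E) - D k‖) x := by fun_prop
            have c2 : ContinuousAt (fun y : X E => ‖(c.φ i j y : E) - c.φ i j (D k) - L ((y : E) - D k)‖) x :=
              (((hcoe x hx).sub continuousAt_const).sub (by fun_prop)).norm
            exact c1.eventually_lt c2 hn
          obtain ⟨k', hk', hk2⟩ := exists_dense_near hx h5
          exact absurd (h3 k' k hk' hk) (not_le.2 hk2)
        intro x hx y hy
        by_contra hn
        rw [not_le] at hn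
        have h5 : ∀ᶠ z : X E in 𝓝 y, 1 / ((m : ℝ) + 1) * ‖(x : E) - z‖ <
            ‖(c.φ i j x : E) - c.φ i j z - L ((x : E) - z)‖ := by
          have c1 : ContinuousAt (fun z : X E => 1 / ((m : ℝ) + 1) * ‖(x : E) - z‖) y := by fun_prop
          have c2 : ContinuousAt (fun z : X E => ‖(c.φ i j x : E) - c.φ i j z - L ((x : E) - z)‖) y :=
            ((continuousAt_const.sub (hcoe y hy)).sub (by fun_prop)).norm
          exact c1.eventually_lt c2 hn
        obtain ⟨k, hk, hk2⟩ := exists_dense_near hy h5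
        exact absurd (h4 k hk x hx) (not_le.2 hk2)
  rw [hset]
  borelize (X E)
  have hmp : ∀ k, Measurable (fun c : Code E => c.φ i j (D k)) := fun k => meas_phi i j (D k)
  letI mE : MeasurableSpace E := borel E
  have bE : BorelSpace E := ⟨rfl⟩
  have hmv : @Measurable (X E) E (borel (X E)) (borel E) (Subtype.val : X E → E) :=
    continuous_subtype_val.borel_measurable
  have hmc : ∀ k, Measurable (fun c : Code E => (c.φ i j (D k) : E)) := fun k =>
    hmv.comp (meas_phi i j (D k))
  refine (meas_compact i j (cb_compact b)).inter (MeasurableSet.inter ?_ ?_)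
  · refine MeasurableSet.iInter fun k => ?_
    by_cases hk : D k ∈ (ob b : Set (X E))
    · have : {c : Code E | D k ∈ (ob b : Set (X E)) → c.φ i j (D k) ∈ (cb b₂ : Set (X E))} =
          (fun c : Code E => c.φ i j (D k)) ⁻¹' (cb b₂) := by
        ext c
        simp [hk]
      rw [this]
      exact (hmp k) (cb_compact b₂).isClosed.measurableSet
    · have : {c : Code E | D k ∈ (ob b : Set (X E)) → c.φ i j (D k) ∈ (cb b₂ : Set (X E))} = univ := by
        ext c
        simp [hk]
      rw [this]
      exact MeasurableSet.univ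
  · refine MeasurableSet.iInter fun k => MeasurableSet.iInter fun k' => ?_
    by_cases hk : D k ∈ (ob b : Set (X E)) ∧ D k' ∈ (ob b : Set (X E))
    · have : {c : Code E | D k ∈ (ob b : Set (X E)) → D k' ∈ (ob b : Set (X E)) →
          ‖(c.φ i j (D k) : E) - c.φ i j (D k') - L ((D k : E) - D k')‖ ≤
          1 / ((m : ℝ) + 1) * ‖(D k : E) - D k'‖} =
          {c : Code E | ‖(c.φ i j (D k) : E) - c.φ i j (D k') - L ((D k : E) - D k')‖ ≤
          1 / ((m : ℝ) + 1) * ‖(D k : E) - D k'‖} := by
        ext c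
        simp [hk.1, hk.2]
      rw [this]
      have hm : Measurable (fun c : Code E =>
          ‖(c.φ i j (D k) : E) - c.φ i j (D k') - L ((D k : E) - D k')‖) :=
        (((hmc k).sub (hmc k')).sub_const _).norm
      exact measurableSet_le hm measurable_const
    · have : {c : Code E | D k ∈ (ob b : Set (X E)) → D k' ∈ (ob b : Set (X E)) →
          ‖(c.φ i j (D k) : E) - c.φ i j (D k') - L ((D k : E) - D k')‖ ≤
          1 / ((m : ℝ) + 1) * ‖(D k : E) - D k'‖} = univ := by
        ext c
        simp only [mem_ofPred_eq, mem_univ, iff_true]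
        intro h1 h2
        exact absurd ⟨h1, h2⟩ hk
      rw [this]
      exact MeasurableSet.univ

theorem SD_meas (i j : ℕ) (b b' : ℕ × ℕ × ℕ) : MeasurableSet (SD i j b b' : Set (Code E)) := by
  set D := TopologicalSpace.denseSeq (X E) with hD
  have hset : (SD i j b b' : Set (Code E)) = {c : Code E | (cb b : Set (X E)) ⊆ c.V i i} ∩
      ({c : Code E | (cb b' : Set (X E)) ⊆ c.V j j} ∩
      ⋃ m : ℕ, ⋂ k, {c : Code E | D k ∈ Metric.thickening (1 / ((m : ℝ) + 1)) (cb b : Set (X E)) →
        D k ∈ c.V i j → c.φ i j (D k) ∉ Metric.thickening (1 / ((m : ℝ) + 1)) (cb b' : Set (X E))}) := by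
    ext c
    simp only [mem_inter_iff, mem_iInter, mem_ofPred_eq, mem_iUnion]
    constructor
    · rintro ⟨h1, h2, h3⟩
      refine ⟨h1, h2, ?_⟩
      -- compactness of the product
      set U : Set (X E × X E) := interior {p | ¬ (p.1 ∈ c.V i j ∧ c.φ i j p.1 = p.2)} with hU
      have hsub : (cb b : Set (X E)) ×ˢ (cb b' : Set (X E)) ⊆ U := by
        rintro ⟨x, y⟩ ⟨hx, hy⟩
        rw [hU, mem_interior_iff_mem_nhds]
        exact c.haus i j x (h1 hx) y (h2 hy) (h3 x hx y hy)
      obtain ⟨δ, hδ, hδU⟩ := ((cb_compact b).prod (cb_compact b')).exists_thickening_subset_open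
        isOpen_interior hsub
      obtain ⟨m, hm⟩ := exists_nat_one_div_lt hδ
      refine ⟨m, ?_⟩
      intro k hk hkV hkn
      have h4 : (D k, c.φ i j (D k)) ∈ U := by
        apply hδU
        rw [Metric.mem_thickening_iff] at hk hkn ⊢
        obtain ⟨x, hx, hxk⟩ := hk
        obtain ⟨y, hy, hyk⟩ := hkn
        refine ⟨(x, y), ⟨hx, hy⟩, ?_⟩
        rw [Prod.dist_eq]
        exact max_lt (hxk.trans hm) (hyk.trans hm)
      exact interior_subset h4 ⟨hkV, rfl⟩
    · rintro ⟨h1, h2, m, h3⟩
      refine ⟨h1, h2, ?_⟩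
      rintro x hx y hy ⟨hxV, hxy⟩
      have hpos : (0 : ℝ) < 1 / ((m : ℝ) + 1) := by positivity
      have h4 : ∀ᶠ z in 𝓝 x, z ∈ Metric.thickening (1 / ((m : ℝ) + 1)) (cb b : Set (X E)) ∧
          z ∈ c.V i j ∧ c.φ i j z ∈ Metric.thickening (1 / ((m : ℝ) + 1)) (cb b' : Set (X E)) := by
        have a1 : ∀ᶠ z in 𝓝 x, z ∈ Metric.thickening (1 / ((m : ℝ) + 1)) (cb b : Set (X E)) :=
          Metric.isOpen_thickening.mem_nhds (Metric.self_subset_thickening hpos _ hx)
        have a2 : ∀ᶠ z in 𝓝 x, c.φ i j z ∈ Metric.thickening (1 / ((m : ℝ) + 1)) (cb b' : Set (X E)) := by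
          refine (c.contDiffAt hxV).continuousAt.eventually (Metric.isOpen_thickening.mem_nhds ?_)
          rw [hxy]
          exact Metric.self_subset_thickening hpos _ hy
        filter_upwards [a1, a2, (c.isOpen i j).mem_nhds hxV] with z z1 z2 z3
        exact ⟨z1, z3, z2⟩
      obtain ⟨k, _, hk⟩ := exists_dense_near hx h4
      exact h3 k hk.1 hk.2.1 hk.2.2
  rw [hset]
  borelize (X E)
  have hmp : ∀ k, Measurable (fun c : Code E => c.φ i j (D k)) := fun k => meas_phi i j (D k)
  refine (meas_compact i i (cb_compact b)).inter ((meas_compact j j (cb_compact b')).inter ?_)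
  refine MeasurableSet.iUnion fun m => MeasurableSet.iInter fun k => ?_
  by_cases hk : D k ∈ Metric.thickening (1 / ((m : ℝ) + 1)) (cb b : Set (X E))
  · have : {c : Code E | D k ∈ Metric.thickening (1 / ((m : ℝ) + 1)) (cb b : Set (X E)) →
        D k ∈ c.V i j → c.φ i j (D k) ∉ Metric.thickening (1 / ((m : ℝ) + 1)) (cb b' : Set (X E))} =
        {c : Code E | D k ∈ c.V i j}ᶜ ∪ ((fun c : Code E => c.φ i j (D k)) ⁻¹'
          (Metric.thickening (1 / ((m : ℝ) + 1)) (cb b' : Set (X E))))ᶜ := by
      ext c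
      simp only [mem_ofPred_eq, mem_union, mem_compl_iff, mem_preimage]
      tauto
    rw [this]
    exact (meas_mem i j (D k)).compl.union
      ((hmp k) Metric.isOpen_thickening.measurableSet).compl
  · have : {c : Code E | D k ∈ Metric.thickening (1 / ((m : ℝ) + 1)) (cb b : Set (X E)) →
        D k ∈ c.V i j → c.φ i j (D k) ∉ Metric.thickening (1 / ((m : ℝ) + 1)) (cb b' : Set (X E))} =
        univ := by
      ext c
      simp only [mem_ofPred_eq, mem_univ, iff_true]
      intro h
      exact absurd h hk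
    rw [this]
    exact MeasurableSet.univ

theorem open_meas {A : Set (Code E)} (hA : IsOpen A) : MeasurableSet A := by
  have h1 : borel (Code E) = MeasurableSpace.generateFrom (subC E) :=
    borel_eq_generateFrom_of_subbasis rfl
  have h2 : MeasurableSpace.generateFrom (subC E) ≤ (measC : MeasurableSpace (Code E)) := by
    refine MeasurableSpace.generateFrom_le ?_
    rintro S (⟨p, rfl⟩ | ⟨p, rfl⟩)
    · exact SA_meas _ _ _ _ _ _
    · exact SD_meas _ _ _ _
  have h3 : MeasurableSet[borel (Code E)] A := by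
    borelize (Code E)
    exact hA.measurableSet
  rw [h1] at h3
  exact h2 A h3

theorem RR_meas (S : Sym) (x₂ x : Nm) : MeasurableSet {c : Code E | RR c S x₂ x} :=
  open_meas (RR_open S x₂ x)

end Pool.Agent.TH227.BM
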