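import Pool.Agent.TH227.BM.Diff

/-!
Perturbations of the identity of the half-space.
-/

set_option linter.unusedSectionVars false

open Set Filter Topology
open scoped ContDiff Manifold

namespace Pool.Agent.TH227.BM

variable {κ : Type} {E : Type} [NormedAddCommGroup E] [NormedSpace ℝ E] [Half E]
variable [FiniteDimensional ℝ E]
variable {l : Filter κ}

local instance : CompleteSpace E := by
  have : ProperSpace E := FiniteDimensional.proper_real E
  infer_instance

/-- Diffeomorphism `T` of the half-space with inverse `T'`, the identity off `S`. -/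
structure DE (S : Set (X E)) (T T' : X E → X E) : Prop where
  sm : ∀ y, CX T y
  sm' : ∀ y, CX T' y
  left : ∀ y, T' (T y) = y
  right : ∀ y, T (T' y) = y
  off : ∀ y, y ∉ S → T y = y

theorem DE.off' {S : Set (X E)} {T T' : X E → X E} (h : DE S T T') : ∀ y, y ∉ S → T' y = y := by
  intro y hy
  have h1 := h.left y
  rwa [h.off y hy] at h1

theorem DE.symm {S : Set (X E)} {T T' : X E → X E} (h : DE S T T') : DE S T' T :=
  ⟨h.sm', h.sm, h.right, h.left, h.off'⟩

theorem DE.comp {S : Set (X E)} {T T' R R' : X E → X E} (h : DE S T T') (hR : DE S R R') :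
    DE S (T ∘ R) (R' ∘ T') := by
  refine ⟨fun y => (h.sm _).comp (hR.sm y), fun y => (hR.sm' _).comp (h.sm' y), ?_, ?_, ?_⟩
  · intro y
    show R' (T' (T (R y))) = y
    rw [h.left, hR.left]
  · intro y
    show T (R (R' (T' y))) = y
    rw [hR.right, h.right]
  · intro y hy
    show T (R y) = y
    rw [hR.off y hy, h.off y hy]

/-- The closeness needed. -/
noncomputable def del (E : Type) [NormedAddCommGroup E] [NormedSpace ℝ E] [Half E] : ℝ :=
  1 / (2 * cst E)

theorem cst_ge : 3 ≤ cst E := by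
  unfold cst
  have h1 := norm_nonneg (Half.lam : E →L[ℝ] ℝ)
  have h2 := norm_nonneg (Half.e : E)
  nlinarith [mul_nonneg h1 h2]

theorem del_pos : 0 < del E := by
  unfold del
  have := cst_pos (E := E)
  positivity

theorem del_le : del E ≤ 1 / 2 := by
  unfold del
  have h := cst_ge (E := E)
  rw [div_le_div_iff₀ (by linarith) (by norm_num)]
  linarith

theorem ext_side' {u : X E → X E} (hu : ∀ y, CX u y) {z : E} (hz : 0 ≤ Half.lam (ext u z)) :
    0 ≤ Half.lam z := by
  by_contra hn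
  push Not at hn
  have hm : mn z = Half.lam z := min_eq_left hn.le
  have c1 := (hu (⟨pj z, pj_mem z⟩ : X E)).2
  have c2 := (hu (⟨rf z, rf_mem z⟩ : X E)).2
  have d1 : bd (⟨pj z, pj_mem z⟩ : X E) := by
    show Half.lam (pj z) = 0
    rw [lam_pj, hm, sub_self]
  have d2 : ¬ bd (⟨rf z, rf_mem z⟩ : X E) := by
    rw [not_bd]
    show 0 < Half.lam (rf z)
    rw [lam_rf, hm]
    linarith
  have e1 := c1.2 d1
  have e2 : 0 < Half.lam ((u ⟨rf z, rf_mem z⟩ : X E) : E) := not_bd.1 (fun h => d2 (c2.1 h))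
  have f1 : lf (cf u) (pj z) = u ⟨pj z, pj_mem z⟩ := lf_cf u ⟨pj z, pj_mem z⟩
  have f2 : lf (cf u) (rf z) = u ⟨rf z, rf_mem z⟩ := lf_cf u ⟨rf z, rf_mem z⟩
  unfold ext at hz
  rw [map_sub, map_smul, f1, f2] at hz
  have e1' : Half.lam ((u ⟨pj z, pj_mem z⟩ : X E) : E) = 0 := e1
  rw [e1', smul_zero] at hz
  linarith

/-- A smooth map which is close to the identity in the first derivative is a diffeomorphism. -/
theorem diffeo_of_close {F : X E → X E} (hF : ∀ y, CX F y)
    (hd : ∀ y, ‖dx F y - ContinuousLinearMap.id ℝ E‖ ≤ del E) :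
    ∃ G : X E → X E, (∀ y, CX G y) ∧ (∀ y, G (F y) = y) ∧ (∀ y, F (G y) = y) ∧
      ∀ y, ‖dx G (F y) - ContinuousLinearMap.id ℝ E‖ ≤
        2 * ‖dx F y - ContinuousLinearMap.id ℝ E‖ := by
  have hg : ∀ a ∈ Hs E, ∀ b ∈ Hs E, ‖lf (cf F) a - lf (cf F) b -
      ContinuousLinearMap.id ℝ E (a - b)‖ ≤ del E * ‖a - b‖ := by
    intro a ha b hb
    refine Convex.norm_image_sub_le_of_norm_hasFDerivWithin_le' (f' := fun z => dx F (rt z))
      (s := Hs E) ?_ ?_ Hs_convex hb ha
    · intro z hz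
      have h5 : rt z = ⟨z, hz⟩ := rt_of hz
      rw [h5]
      exact (hF ⟨z, hz⟩).1.diff.hasFDerivWithinAt
    · intro z hz
      exact hd _
  have happ : ApproximatesLinearOn (ext F)
      ((ContinuousLinearEquiv.refl ℝ E : E ≃L[ℝ] E) : E →L[ℝ] E) univ (1 / 2 : NNReal) := by
    intro x _ y _
    have h1 := ext_approx (u := F) (A := ContinuousLinearMap.id ℝ E) (z := x) (w := y)
      (hg _ (pj_mem x) _ (pj_mem y)) (hg _ (rf_mem x) _ (rf_mem y)) del_pos.le
    have h2 : del E * cst E = ((1 / 2 : NNReal) : ℝ) := by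
      unfold del
      have := (cst_pos (E := E)).ne'
      push_cast
      field_simp
    rw [h2] at h1
    exact h1
  have hc : Subsingleton E ∨ (1 / 2 : NNReal) <
      ‖((ContinuousLinearEquiv.refl ℝ E).symm : E →L[ℝ] E)‖₊⁻¹ := by
    rcases subsingleton_or_nontrivial E with hs | hs
    · exact Or.inl hs
    · right
      have h1 : ‖((ContinuousLinearEquiv.refl ℝ E).symm : E →L[ℝ] E)‖₊ = 1 := by
        have h2 : ((ContinuousLinearEquiv.refl ℝ E).symm : E →L[ℝ] E) =
            ContinuousLinearMap.id ℝ E := rfl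
        rw [h2]
        apply NNReal.eq
        rw [coe_nnnorm, ContinuousLinearMap.norm_id]
        rfl
      rw [h1, inv_one, ← NNReal.coe_lt_coe]
      norm_num
  set H : E ≃ₜ E := happ.toHomeomorph (ext F) hc with hH
  have hHF : ∀ y, H y = ext F y := fun y => rfl
  have hinv : ∀ y, (dx F y).IsInvertible := by
    intro y
    have h1 : IsUnit (1 - (1 - dx F y) : E →L[ℝ] E) := by
      have h2 : ‖(1 - dx F y : E →L[ℝ] E)‖ < 1 := by
        have h3 := (hd y).trans del_le
        rw [norm_sub_rev] at h3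
        have h4 : (1 : E →L[ℝ] E) = ContinuousLinearMap.id ℝ E := rfl
        rw [h4]
        linarith
      exact isUnit_one_sub_of_norm_lt_one h2
    rw [sub_sub_cancel] at h1
    obtain ⟨A, hA⟩ := h1
    exact ⟨ContinuousLinearEquiv.unitsEquiv ℝ E A, hA⟩
  have hmem : ∀ y : X E, 0 ≤ Half.lam (H.symm (y : E)) := by
    intro y
    refine ext_side' hF ?_
    rw [← hHF, H.apply_symm_apply]
    exact y.2
  set G : X E → X E := fun y => ⟨H.symm y, hmem y⟩ with hGdef
  have hFG : ∀ y, F (G y) = y := by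
    intro y
    apply Subtype.ext
    rw [← ext_of (u := F) (hmem y), ← hHF, H.apply_symm_apply]
  have hFinj : Function.Injective F := by
    intro a b hab
    apply Subtype.ext
    apply H.injective
    rw [hHF, hHF, ext_coe, ext_coe, hab]
  have hGF : ∀ y, G (F y) = y := fun y => hFinj (hFG (F y))
  have hSN : ∀ y, SN F y := fun y => Filter.Eventually.of_forall fun z => hF z
  have hsymm : ∀ y, SN G (F y) := by
    intro y
    obtain ⟨v, v1, v2, v3, v4, v5⟩ := exists_local_inverse (hSN y) (hinv y)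
    refine v1.congr ?_
    filter_upwards [v4] with z hz
    apply hFinj
    rw [hFG, hz]
  have hsm : ∀ y, CX G y := by
    intro y
    have h1 := (hsymm (G y)).self
    rwa [hFG] at h1
  refine ⟨G, hsm, hGF, hFG, ?_⟩
  intro y
  have h1 : (dx G (F y)).comp (dx F y) = ContinuousLinearMap.id ℝ E := by
    rw [← dx_comp (hsm _) (hF y)]
    have h2 : (G ∘ F) = id := by
      funext z
      exact hGF z
    rw [h2, dx_id]
  set A := dx F y with hA
  set B := dx G (F y) with hB
  have h2 : B - ContinuousLinearMap.id ℝ E = B.comp (ContinuousLinearMap.id ℝ E - A) := by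
    rw [ContinuousLinearMap.comp_sub, h1, ContinuousLinearMap.comp_id]
  have h3 : ‖B - ContinuousLinearMap.id ℝ E‖ ≤ ‖B‖ * ‖A - ContinuousLinearMap.id ℝ E‖ := by
    rw [h2, norm_sub_rev A]
    exact ContinuousLinearMap.opNorm_comp_le _ _
  have h4 : ‖B‖ ≤ 2 := by
    have h5 : ‖B‖ ≤ ‖B - ContinuousLinearMap.id ℝ E‖ + ‖ContinuousLinearMap.id ℝ E‖ := by
      have := norm_add_le (B - ContinuousLinearMap.id ℝ E) (ContinuousLinearMap.id ℝ E)
      simpa using this
    have h6 : ‖ContinuousLinearMap.id ℝ E‖ ≤ 1 := ContinuousLinearMap.norm_id_le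
    have h7 := (hd y).trans del_le
    have h8 : ‖B‖ * ‖A - ContinuousLinearMap.id ℝ E‖ ≤ ‖B‖ * (1 / 2) :=
      mul_le_mul_of_nonneg_left h7 (norm_nonneg _)
    linarith
  exact h3.trans (mul_le_mul_of_nonneg_right h4 (norm_nonneg _))

theorem near_id {S : Set (X E)} (hS : IsCompact S) {χ : E → ℝ} (hχ : Cut χ)
    (hχS : ∀ y : X E, y ∉ S → χ y = 0) {f : κ → X E → X E} (hf : ∀ y ∈ S, CS l f id y) :
    ∃ G : κ → X E → X E, (∀ y, CS l (fun k y => mix (χ y) y (f k y)) id y) ∧
      (∀ y, CS l G id y) ∧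
      ∀ᶠ k in l, DE S (fun y => mix (χ y) y (f k y)) (G k) := by
  set F : κ → X E → X E := fun k y => mix (χ y) y (f k y) with hFdef
  have hoff' : ∀ y, y ∉ S → ∀ k, F k y = y := by
    intro y hy k
    show mix (χ y) y (f k y) = y
    rw [hχS y hy, mix_zero]
  have hoff : ∀ y, y ∉ S → ∀ k, F k =ᶠ[𝓝 y] id := by
    intro y hy k
    filter_upwards [hS.isClosed.isOpen_compl.mem_nhds hy] with z hz
    exact hoff' z hz k
  have hF : ∀ y, CS l F id y := by
    intro y
    by_cases hy : y ∈ S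
    · exact CS_mix hχ (hf y hy)
    · refine (CS_id (l := l) (x := y)).congr ?_ (Filter.Eventually.of_forall fun _ => rfl)
      filter_upwards [ev_snd (l := l) (hS.isClosed.isOpen_compl.mem_nhds hy)] with p hp
      exact (hoff' p.2 hp p.1).symm
  -- uniform closeness
  have hunif : ∀ ε > 0, ∀ᶠ k in l, ∀ y, CX (F k) y ∧ dist (F k y) y ≤ ε ∧
      ‖dx (F k) y - ContinuousLinearMap.id ℝ E‖ ≤ ε := by
    intro ε hε
    have h1 : ∀ᶠ k in l, ∀ y ∈ S, ∀ᶠ y' in 𝓝 y, CX (F k) y' ∧ dist (F k y') y' ≤ ε ∧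
      ‖dx (F k) y' - ContinuousLinearMap.id ℝ E‖ ≤ ε := by
      refine compact_ev (P := fun p => CX (F p.1) p.2 ∧ dist (F p.1 p.2) p.2 ≤ ε ∧
        ‖dx (F p.1) p.2 - ContinuousLinearMap.id ℝ E‖ ≤ ε) hS ?_
      intro y _
      have h2 : Tendsto (fun p : κ × X E => dist (F p.1 p.2) p.2) (l ×ˢ 𝓝 y) (𝓝 0) := by
        have h3 : Tendsto (fun p : κ × X E => p.2) (l ×ˢ 𝓝 y) (𝓝 y) := tendsto_snd
        have h4 := (hF y).val.dist h3
        simpa using h4
      have h5 : Tendsto (fun p : κ × X E => ‖dx (F p.1) p.2 - ContinuousLinearMap.id ℝ E‖)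
          (l ×ˢ 𝓝 y) (𝓝 0) := by
        have h4 := ((hF y).der.sub (tendsto_const_nhds (x := ContinuousLinearMap.id ℝ E))).norm
        rw [dx_id, sub_self, norm_zero] at h4
        exact h4
      filter_upwards [(hF y).1, h2.eventually (ge_mem_nhds hε), h5.eventually (ge_mem_nhds hε)]
        with p a1 a2 a3
      exact ⟨a1, a2, a3⟩
    filter_upwards [h1] with k hk y
    by_cases hy : y ∈ S
    · exact (hk y hy).self_of_nhds
    · have h2 := hoff y hy k
      refine ⟨(CX_id y).congr h2.symm, ?_, ?_⟩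
      · rw [h2.self_of_nhds]
        simp [hε.le]
      · rw [dx_congr h2, dx_id]
        simp [hε.le]
  classical
  -- choice of the inverse
  have hex : ∀ k, ∃ G : X E → X E, ((∀ y, CX (F k) y) ∧ ∀ y, ‖dx (F k) y -
      ContinuousLinearMap.id ℝ E‖ ≤ del E) → (∀ y, CX G y) ∧ (∀ y, G (F k y) = y) ∧
      (∀ y, F k (G y) = y) ∧ ∀ y, ‖dx G (F k y) - ContinuousLinearMap.id ℝ E‖ ≤
        2 * ‖dx (F k) y - ContinuousLinearMap.id ℝ E‖ := by
    intro k
    by_cases h : (∀ y, CX (F k) y) ∧ ∀ y, ‖dx (F k) y -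
        ContinuousLinearMap.id ℝ E‖ ≤ del E
    · obtain ⟨G, hG⟩ := diffeo_of_close h.1 h.2
      exact ⟨G, fun _ => hG⟩
    · exact ⟨id, fun h' => absurd h' h⟩
  choose G hG using hex
  have hgood : ∀ᶠ k in l, (∀ y, CX (F k) y) ∧ ∀ y, ‖dx (F k) y -
      ContinuousLinearMap.id ℝ E‖ ≤ del E := by
    filter_upwards [hunif (del E) del_pos] with k hk
    exact ⟨fun y => (hk y).1, fun y => (hk y).2.2⟩
  refine ⟨G, hF, ?_, ?_⟩
  · intro y
    refine CS.mk' ?_ (SN_id y) ?_ ?_
    · filter_upwards [ev_fst hgood] with p hp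
      exact (hG p.1 hp).1 _
    · rw [Metric.tendsto_nhds]
      intro ε hε
      filter_upwards [ev_fst hgood, ev_fst (hunif (ε / 2) (half_pos hε)),
        ev_snd (Metric.ball_mem_nhds y (half_pos hε))] with p hp1 hp2 hp3
      have h1 := (hp2 (G p.1 p.2)).2.1
      rw [(hG p.1 hp1).2.2.1] at h1
      have h2 : dist p.2 y < ε / 2 := hp3
      have h3 := dist_triangle (G p.1 p.2) p.2 y
      rw [dist_comm (G p.1 p.2) p.2] at h3
      show dist (G p.1 p.2) y < ε
      linarith
    · rw [dx_id, Metric.tendsto_nhds]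
      intro ε hε
      filter_upwards [ev_fst hgood, ev_fst (hunif (ε / 4) (by positivity))] with p hp1 hp2
      have h1 := (hG p.1 hp1).2.2.2 (G p.1 p.2)
      rw [(hG p.1 hp1).2.2.1] at h1
      have h2 := (hp2 (G p.1 p.2)).2.2
      rw [dist_eq_norm]
      linarith
  · filter_upwards [hgood] with k hk
    have h1 := hG k hk
    exact ⟨hk.1, h1.1, h1.2.1, h1.2.2.1, fun y hy => hoff' y hy k⟩

/-- Smooth cutoff function. -/
theorem cutoff {s t : Set (X E)} (hs : IsClosed s) (hst : s ⊆ interior t) :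
    ∃ χ : E → ℝ, Cut χ ∧ (∀ x ∈ s, ∀ᶠ y : X E in 𝓝 x, χ y = 1) ∧
      ∀ x : X E, x ∉ t → χ x = 0 := by
  have : ProperSpace E := FiniteDimensional.proper_real E
  have hcl : IsClosed {x : E | 0 ≤ Half.lam x} := Hs_closed
  have hemb := hcl.isClosedEmbedding_subtypeVal
  have h1 : IsClosed ((Subtype.val : X E → E) '' s) := hemb.isClosedMap _ hs
  have h2 : IsOpen ((Subtype.val : X E → E) '' (interior t)ᶜ)ᶜ := by
    rw [isOpen_compl_iff]
    exact hemb.isClosedMap _ isOpen_interior.isClosed_compl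
  have h3 : (Subtype.val : X E → E) '' s ⊆ interior ((Subtype.val : X E → E) '' (interior t)ᶜ)ᶜ := by
    rw [h2.interior_eq]
    rintro _ ⟨x, hx, rfl⟩ ⟨y, hy, hxy⟩
    rw [Subtype.ext hxy] at hy
    exact hy (hst hx)
  obtain ⟨f, f1, f2, f3⟩ := exists_contMDiffMap_one_nhds_of_subset_interior (n := (⊤ : ℕ∞))
    𝓘(ℝ, E) h1 h3
  refine ⟨f, ⟨f.contMDiff.contDiff, f3⟩, ?_, ?_⟩
  · intro x hx
    have h5 : (x : E) ∈ (Subtype.val : X E → E) '' s := ⟨x, hx, rfl⟩
    have h4 : ∀ᶠ y : E in 𝓝 (x : E), f y = 1 := f1.filter_mono (nhds_le_nhdsSet h5)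
    exact continuous_subtype_val.continuousAt.tendsto.eventually h4
  · intro x hx
    refine f2 _ ?_
    intro h
    exact h ⟨x, fun h5 => hx (interior_subset h5), rfl⟩

end Pool.Agent.TH227.BM
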