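import Pool.Agent.TH227.BM.Open

/-!
Countably many compact pieces, names for classes of embeddings, and countably many morphisms.
-/

set_option linter.unusedSectionVars false

open Set Filter Topology
open scoped ContDiff Manifold

namespace Pool.Agent.TH227.BM

variable {E : Type} [NormedAddCommGroup E] [NormedSpace ℝ E] [Half E] [FiniteDimensional ℝ E]

local instance : CompleteSpace E := by
  have : ProperSpace E := FiniteDimensional.proper_real E
  infer_instance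

local instance : ProperSpace E := FiniteDimensional.proper_real E

/-- The code without charts. -/
def emptyCode (E : Type) [NormedAddCommGroup E] [NormedSpace ℝ E] [Half E] : Code E where
  V _ _ := ∅
  φ _ _ _ := x0
  isOpen _ _ := isOpen_empty
  sub _ _ := Subset.rfl
  refl _ x hx := absurd hx (by simp)
  cocycle _ _ _ x hx := absurd hx (by simp)
  smooth _ _ x hx := absurd hx (by simp)
  off _ _ _ _ := rfl
  haus _ _ x hx := absurd hx (by simp)

instance : Nonempty (Code E) := ⟨emptyCode E⟩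

/-- Indices of pieces. -/
abbrev Pc : Type := ℕ × List (ℕ × ℕ × ℕ)

/-- The code of a piece. -/
noncomputable def pd (E : Type) [NormedAddCommGroup E] [NormedSpace ℝ E] [Half E] [FiniteDimensional ℝ E]
    (P : Pc) : Code E := TopologicalSpace.denseSeq (Code E) P.1

open Classical in
/-- The list of balls of a piece. -/
noncomputable def ps (E : Type) [NormedAddCommGroup E] [NormedSpace ℝ E] [Half E] [FiniteDimensional ℝ E]
    (P : Pc) : List (ℕ × ℕ × ℕ) := if valid (pd E P) P.2 then P.2 else []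

theorem ps_valid (P : Pc) : valid (pd E P) (ps E P) := by
  unfold ps
  split_ifs with h
  · exact h
  · simp [valid]

/-- The compact core of a piece. -/
noncomputable def PK (E : Type) [NormedAddCommGroup E] [NormedSpace ℝ E] [Half E] [FiniteDimensional ℝ E]
    (P : Pc) : Set (Pt E) := K (pd E P) (ps E P)

/-- Embeddings of a piece. -/
def PEmb (P : Pc) (c : Code E) (e : Pt E → Pt E) : Prop := Emb (pd E P) (ps E P) c e

/-- Equivalence of embeddings of a piece. -/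
def PSim (P : Pc) (c : Code E) (e e' : Pt E → Pt E) : Prop := sim (pd E P) (ps E P) c e e'

/-- Equality near the core. -/
def PEq (P : Pc) (e e' : Pt E → Pt E) : Prop := EqNear (pd E P) (ps E P) e e'

/-- The pieces are cofinal. -/
theorem cofinal (c₀ : Code E) {t : List (ℕ × ℕ × ℕ)} (ht : valid c₀ t) :
    ∃ (P : Pc) (e : Pt E → Pt E), PEmb P c₀ e ∧
      ∀ w ∈ K c₀ t, ∃ z, PK E P ∈ nh (pd E P) z ∧ z ∈ PK E P ∧ e z = w := by
  have hne : Nonempty (Pt E) := ⟨∅⟩
  obtain ⟨tp, htp, hcov, _⟩ := enlarge (W := univ) ht (fun z _ => Filter.univ_mem)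
  obtain ⟨ι, _, hιe⟩ := transfer_emb (l := 𝓝 c₀) (c := id) (conv_of_tendsto tendsto_id) htp
  obtain ⟨U, hU, hUo, hcU⟩ := mem_nhds_iff.1 hιe
  obtain ⟨n, hn⟩ := (TopologicalSpace.denseRange_denseSeq (Code E)).exists_mem_open hUo ⟨c₀, hcU⟩
  set d := TopologicalSpace.denseSeq (Code E) n with hd
  obtain ⟨hinj, hLD'⟩ := hU hn
  have hLD : ∀ z ∈ K c₀ tp, LD c₀ d (ι d) z := hLD'
  set I : Set (Pt E) := {z | z ∈ K c₀ tp ∧ K c₀ tp ∈ nh c₀ z} with hI
  set W : Set (Pt E) := ι d '' I with hW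
  have hKt : ∀ z ∈ K c₀ t, z ∈ K c₀ tp := fun z hz =>
    nh_self (K_sub_M ht hz) (P := fun z => z ∈ K c₀ tp) (hcov z hz)
  have hInh : ∀ z ∈ I, I ∈ nh c₀ z := by
    rintro z ⟨h1, h2⟩
    have h3 : ∀ᶠ z' in nh c₀ z, z' ∈ K c₀ tp := h2
    filter_upwards [h3, nh_ev (K_sub_M htp h1) h3] with z' a1 a2
    exact ⟨a1, a2⟩
  have hKI : ∀ z ∈ K c₀ t, z ∈ I := fun z hz => ⟨hKt z hz, hcov z hz⟩
  have hWnh : ∀ z ∈ I, W ∈ nh d (ι d z) := by
    intro z hz
    rw [← (hLD z hz.1).map_nh]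
    exact Filter.image_mem_map (hInh z hz)
  obtain ⟨s, hs, hsc, hsW⟩ := image_cover (e := ι d) (c := d) (W := W) ht
    (fun z hz => (hLD z (hKt z hz)).tendsto) (fun z hz => (hLD z (hKt z hz)).mem_tgt)
    (fun z hz => hWnh z (hKI z hz))
  have hps : ps E (n, s) = s := by
    unfold ps
    rw [if_pos]
    exact hs
  have hpd : pd E (n, s) = d := rfl
  have hinjI : InjOn (ι d) I := hinj.mono (fun z hz => hz.1)
  refine ⟨(n, s), Function.invFunOn (ι d) I, ?_, ?_⟩
  · show Emb (pd E (n, s)) (ps E (n, s)) c₀ _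
    rw [hps, hpd]
    refine ⟨W, hsW, ?_, ?_⟩
    · rintro _ ⟨z, hz, rfl⟩ _ ⟨z', hz', rfl⟩ h
      rw [hinjI.leftInvOn_invFunOn hz, hinjI.leftInvOn_invFunOn hz'] at h
      rw [h]
    · rintro _ ⟨z, hz, rfl⟩
      refine (hLD z hz.1).inverse ?_
      filter_upwards [hInh z hz] with z' hz'
      exact hinjI.leftInvOn_invFunOn hz'
  · intro w hw
    have h1 := hsc w hw
    refine ⟨ι d w, ?_, ?_, ?_⟩
    · show K (pd E (n, s)) (ps E (n, s)) ∈ nh (pd E (n, s)) _
      rw [hps, hpd]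
      exact h1
    · show ι d w ∈ K (pd E (n, s)) (ps E (n, s))
      rw [hps, hpd]
      exact nh_self (hLD w (hKt w hw)).mem_tgt (P := fun w => w ∈ K d s) h1
    · exact hinjI.leftInvOn_invFunOn (hKI w hw)

/-- A countable basis, as a sequence starting with the empty set. -/
theorem exists_basis (X : Type) [TopologicalSpace X] [SecondCountableTopology X] :
    ∃ B : ℕ → Set X, (∀ n, IsOpen (B n)) ∧ B 0 = ∅ ∧
      ∀ y (N : Set X), IsOpen N → y ∈ N → ∃ n, y ∈ B n ∧ B n ⊆ N := by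
  obtain ⟨b, hb, _, hbas⟩ := TopologicalSpace.exists_countable_basis X
  have h1 : (insert ∅ b).Countable := hb.insert ∅
  obtain ⟨f, hf⟩ := h1.exists_eq_range (insert_nonempty ∅ b)
  have hfm : ∀ n, f n = ∅ ∨ f n ∈ b := by
    intro n
    have : f n ∈ insert ∅ b := by
      rw [hf]
      exact mem_range_self n
    exact this
  refine ⟨fun n => if n = 0 then ∅ else f (n - 1), ?_, by simp, ?_⟩
  · intro n
    by_cases hn : n = 0
    · simp [hn]
    · simp only [hn, if_false]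
      rcases hfm (n - 1) with h | h
      · rw [h]
        exact isOpen_empty
      · exact hbas.isOpen h
  · intro y N hN hy
    obtain ⟨V, hV, hyV, hVN⟩ := hbas.exists_subset_of_mem_open hy hN
    have h2 : V ∈ range f := by
      rw [← hf]
      exact mem_insert_of_mem _ hV
    obtain ⟨n, rfl⟩ := h2
    refine ⟨n + 1, ?_, ?_⟩
    · simpa using hyV
    · simpa using hVN

/-- The basis of the space of embeddings of a piece. -/
noncomputable def BB (E : Type) [NormedAddCommGroup E] [NormedSpace ℝ E] [Half E] [FiniteDimensional ℝ E]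
    (P : Pc) : ℕ → Set (Y (pd E P) (ps E P)) := (exists_basis (Y (pd E P) (ps E P))).choose

theorem BB_open (P : Pc) (n : ℕ) : IsOpen (BB E P n) :=
  (exists_basis (Y (pd E P) (ps E P))).choose_spec.1 n

theorem BB_zero (P : Pc) : BB E P 0 = ∅ :=
  (exists_basis (Y (pd E P) (ps E P))).choose_spec.2.1

theorem BB_basis (P : Pc) (y : Y (pd E P) (ps E P)) {N : Set (Y (pd E P) (ps E P))}
    (hN : IsOpen N) (hy : y ∈ N) : ∃ n, y ∈ BB E P n ∧ BB E P n ⊆ N :=
  (exists_basis (Y (pd E P) (ps E P))).choose_spec.2.2 y N hN hy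

/-- Small sets of embeddings. -/
def small (P : Pc) (N : Set (Y (pd E P) (ps E P))) : Prop :=
  ∀ y ∈ N, ∀ y' ∈ N, y.c = y'.c → PSim P y.c y.e y'.e

open Classical in
/-- The basis sets which are small (the others are replaced by the empty set). -/
noncomputable def NN (E : Type) [NormedAddCommGroup E] [NormedSpace ℝ E] [Half E] [FiniteDimensional ℝ E]
    (P : Pc) (n : ℕ) : Set (Y (pd E P) (ps E P)) := if small P (BB E P n) then BB E P n else ∅

theorem NN_open (P : Pc) (n : ℕ) : IsOpen (NN E P n) := by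
  unfold NN
  split_ifs
  · exact BB_open P n
  · exact isOpen_empty

theorem NN_zero (P : Pc) : NN E P 0 = ∅ := by
  unfold NN
  split_ifs
  · exact BB_zero P
  · rfl

theorem NN_small (P : Pc) (n : ℕ) : small P (NN E P n) := by
  unfold NN
  split_ifs with h
  · exact h
  · intro y hy
    exact absurd hy (by simp)

theorem NN_cover (P : Pc) (y : Y (pd E P) (ps E P)) : ∃ n, y ∈ NN E P n := by
  obtain ⟨T, _, N, hN, hyN, h⟩ := exists_small (ps_valid P) y (W := univ)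
    (fun z _ => Filter.univ_mem)
  obtain ⟨n, hyn, hnN⟩ := BB_basis P y hN hyN
  refine ⟨n, ?_⟩
  unfold NN
  rw [if_pos]
  · exact hyn
  · intro y hy y' hy' hyy
    obtain ⟨h', hd, hh⟩ := h y (hnN hy) y' (hnN hy') hyy
    exact ⟨T, h', hd, hh⟩

/-- Names of classes of embeddings. -/
abbrev Nm : Type := Pc × ℕ × ℕ

/-- The name `x` denotes the embedding `e` (at the code `c`). -/
def Nam (x : Nm) (c : Code E) (e : Pt E → Pt E) : Prop :=
  ∃ h : PEmb x.1 c e, (⟨c, e, h⟩ : Y (pd E x.1) (ps E x.1)) ∈ NN E x.1 x.2.1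

theorem Nam.emb {x : Nm} {c : Code E} {e : Pt E → Pt E} (h : Nam x c e) : PEmb x.1 c e := h.choose

theorem Nam.sim {x : Nm} {c : Code E} {e e' : Pt E → Pt E} (h : Nam x c e) (h' : Nam x c e') :
    PSim x.1 c e e' := by
  obtain ⟨h1, h2⟩ := h
  obtain ⟨h1', h2'⟩ := h'
  exact NN_small x.1 x.2.1 _ h2 _ h2' rfl

theorem exists_name {P : Pc} {c : Code E} {e : Pt E → Pt E} (h : PEmb P c e) :
    ∃ n, ∀ m, Nam (P, n, m) c e := by
  obtain ⟨n, hn⟩ := NN_cover P ⟨c, e, h⟩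
  exact ⟨n, fun m => ⟨h, hn⟩⟩

theorem not_Nam_zero (P : Pc) (m : ℕ) (c : Code E) (e : Pt E → Pt E) : ¬ Nam (P, 0, m) c e := by
  rintro ⟨h1, h2⟩
  have h2' : (⟨c, e, h1⟩ : Y (pd E P) (ps E P)) ∈ NN E P 0 := h2
  rw [NN_zero] at h2'
  exact h2'

/-- Morphisms of pieces. -/
def Mor (P P₂ : Pc) (f : Pt E → Pt E) : Prop :=
  PEmb P (pd E P₂) f ∧ ∀ z ∈ PK E P, PK E P₂ ∈ nh (pd E P₂) (f z)

open Classical in
/-- Countably many morphisms representing all classes. -/
noncomputable def rep (E : Type) [NormedAddCommGroup E] [NormedSpace ℝ E] [Half E] [FiniteDimensional ℝ E]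
    (P P₂ : Pc) (n : ℕ) : Pt E → Pt E :=
  if h : ∃ f, Mor P P₂ f ∧ ∃ h : PEmb P (pd E P₂) f,
    (⟨pd E P₂, f, h⟩ : Y (pd E P) (ps E P)) ∈ BB E P n then h.choose else id

theorem PEmb.ld {P : Pc} {c : Code E} {e : Pt E → Pt E} (h : PEmb P c e) {z : Pt E}
    (hz : z ∈ PK E P) : LD (pd E P) c e z := by
  obtain ⟨O, hO, _, hLD⟩ := h
  exact hLD z (nh_self (K_sub_M (ps_valid P) hz) (P := fun z => z ∈ O) (hO z hz))

theorem Mor.mem {P P₂ : Pc} {f : Pt E → Pt E} (h : Mor P P₂ f) {z : Pt E} (hz : z ∈ PK E P) :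
    f z ∈ PK E P₂ :=
  nh_self (h.1.ld hz).mem_tgt (P := fun w => w ∈ PK E P₂) (h.2 z hz)

theorem exists_rep {P P₂ : Pc} {f : Pt E → Pt E} (hf : Mor P P₂ f) :
    ∃ n, Mor P P₂ (rep E P P₂ n) ∧ ∀ (c : Code E) (e : Pt E → Pt E), PEmb P₂ c e →
      PSim P c (e ∘ rep E P P₂ n) (e ∘ f) := by
  obtain ⟨T, hTW, N, hN, hyN, h⟩ := exists_small (ps_valid P)
    (⟨pd E P₂, f, hf.1⟩ : Y (pd E P) (ps E P)) (W := PK E P₂) hf.2
  obtain ⟨n, hyn, hnN⟩ := BB_basis P _ hN hyN
  have hex : ∃ f, Mor P P₂ f ∧ ∃ h : PEmb P (pd E P₂) f,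
    (⟨pd E P₂, f, h⟩ : Y (pd E P) (ps E P)) ∈ BB E P n := ⟨f, hf, hf.1, hyn⟩
  have hrep : rep E P P₂ n = hex.choose := by
    unfold rep
    rw [dif_pos hex]
  obtain ⟨hm, he, hmem⟩ := hex.choose_spec
  refine ⟨n, by rw [hrep]; exact hm, ?_⟩
  intro c e hemb
  rw [hrep]
  set f₀ := hex.choose with hf₀
  obtain ⟨h', hd, hh⟩ := h _ (hnN hmem) _ (hnN hyn) rfl
  obtain ⟨O, hO, hinj, hLD⟩ := hemb
  have hd' : Dc (pd E P₂) T h' := hd
  have hTW' : ∀ z ∈ K (pd E P₂) T, O ∈ nh (pd E P₂) z := by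
    intro z hz
    have h1 : z ∈ PK E P₂ := nh_self (K_sub_M hd'.val hz) (P := fun w => w ∈ PK E P₂) (hTW z hz)
    exact hO z h1
  refine sim_post hinj hLD hd' hTW' ?_ hh
  intro z hz
  exact (hm.1.ld hz).tendsto (hO _ (hm.mem hz))

/-- Relation symbols. -/
abbrev Sym : Type := Pc ⊕ Unit ⊕ ℕ

/-- The countable structure attached to a code. -/
def RR (c : Code E) : Sym → Nm → Nm → Prop
  | Sum.inl P, x, _ => x.1 = P
  | Sum.inr (Sum.inl _), x, _ => ∃ e, Nam x c e
  | Sum.inr (Sum.inr n), x₂, x => Mor x.1 x₂.1 (rep E x.1 x₂.1 n) ∧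
      ∃ e₂ e₁, Nam x₂ c e₂ ∧ Nam x c e₁ ∧ PSim x.1 c (e₂ ∘ rep E x.1 x₂.1 n) e₁

theorem Emb_id (P : Pc) : PEmb P (pd E P) id := by
  refine ⟨M (pd E P), ?_, injOn_id _, fun z hz => LD_id hz⟩
  intro z hz
  exact nh_M (K_sub_M (ps_valid P) hz)

theorem RR_open (S : Sym) (x₂ x : Nm) : IsOpen {c : Code E | RR c S x₂ x} := by
  rcases S with P | ⟨⟨⟩⟩ | n
  · by_cases h : x₂.1 = P
    · have : {c : Code E | RR c (Sum.inl P) x₂ x} = univ := by
        ext c
        simp [RR, h]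
      rw [this]
      exact isOpen_univ
    · have : {c : Code E | RR c (Sum.inl P) x₂ x} = ∅ := by
        ext c
        simp [RR, h]
      rw [this]
      exact isOpen_empty
  · have h1 := rel_open (E := E) (ps_valid x₂.1) (ps_valid x₂.1) (Emb_id x₂.1)
      (fun z hz => hz) (NN_open x₂.1 x₂.2.1) (NN_open x₂.1 x₂.2.1)
    convert h1 using 1
    ext c
    constructor
    · rintro ⟨e, he, hmem⟩
      exact ⟨_, hmem, _, hmem, rfl, rfl, sim.refl _⟩
    · rintro ⟨y₂, hy₂, y₁, hy₁, rfl, h, _⟩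
      exact ⟨y₂.e, y₂.emb, hy₂⟩
  · by_cases hM : Mor x.1 x₂.1 (rep E x.1 x₂.1 n)
    · have h1 := rel_open (E := E) (ps_valid x.1) (ps_valid x₂.1) hM.1
        (fun z hz => hM.mem hz) (NN_open x₂.1 x₂.2.1) (NN_open x.1 x.2.1)
      convert h1 using 1
      ext c
      constructor
      · rintro ⟨_, e₂, e₁, ⟨h2, h2'⟩, ⟨h1, h1'⟩, hs⟩
        exact ⟨_, h2', _, h1', rfl, rfl, hs⟩
      · rintro ⟨y₂, hy₂, y₁, hy₁, h2, h1, hs⟩
        refine ⟨hM, y₂.e, y₁.e, ?_, ?_, hs⟩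
        · subst h2
          exact ⟨y₂.emb, hy₂⟩
        · subst h1
          exact ⟨y₁.emb, hy₁⟩
    · have : {c : Code E | RR c (Sum.inr (Sum.inr n)) x₂ x} = ∅ := by
        ext c
        simp [RR, hM]
      rw [this]
      exact isOpen_empty

end Pool.Agent.TH227.BM
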