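import Pool.Agent.TH227.BM.Transfer

/-!
Second countable topologies on the set of codes and on the set of embeddings of a compact piece.
-/

set_option linter.unusedSectionVars false

open Set Filter Topology
open scoped ContDiff Manifold

namespace Pool.Agent.TH227.BM

variable {κ : Type} {E : Type} [NormedAddCommGroup E] [NormedSpace ℝ E] [Half E] [FiniteDimensional ℝ E]
variable {l : Filter κ}

local instance : CompleteSpace E := by
  have : ProperSpace E := FiniteDimensional.proper_real E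
  infer_instance

local instance : ProperSpace E := FiniteDimensional.proper_real E

local instance : ProperSpace (E →L[ℝ] E) := FiniteDimensional.proper_real (E →L[ℝ] E)

/-- Subbasic sets of codes: closeness of a gluing map. -/
def SA (i j : ℕ) (b b₂ : ℕ × ℕ × ℕ) (n m : ℕ) : Set (Code E) :=
  {c | (cb b : Set (X E)) ⊆ c.V i j ∧ (∀ x ∈ (cb b : Set (X E)), c.φ i j x ∈ (cb b₂ : Set (X E))) ∧
    ∀ x ∈ (cb b : Set (X E)), ∀ y ∈ (cb b : Set (X E)),
      ‖(c.φ i j x : E) - c.φ i j y - (TopologicalSpace.denseSeq (E →L[ℝ] E) n) ((x : E) - y)‖ ≤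
        1 / ((m : ℝ) + 1) * ‖(x : E) - y‖}

/-- Subbasic sets of codes: separation of two chart balls. -/
def SD (i j : ℕ) (b b' : ℕ × ℕ × ℕ) : Set (Code E) :=
  {c | (cb b : Set (X E)) ⊆ c.V i i ∧ (cb b' : Set (X E)) ⊆ c.V j j ∧
    ∀ x ∈ (cb b : Set (X E)), ∀ y ∈ (cb b' : Set (X E)), ¬ (x ∈ c.V i j ∧ c.φ i j x = y)}

/-- The subbasis. -/
def subC (E : Type) [NormedAddCommGroup E] [NormedSpace ℝ E] [Half E] [FiniteDimensional ℝ E] :
    Set (Set (Code E)) :=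
  range (fun p : ℕ × ℕ × (ℕ × ℕ × ℕ) × (ℕ × ℕ × ℕ) × ℕ × ℕ =>
    SA p.1 p.2.1 p.2.2.1 p.2.2.2.1 p.2.2.2.2.1 p.2.2.2.2.2) ∪
  range (fun p : ℕ × ℕ × (ℕ × ℕ × ℕ) × (ℕ × ℕ × ℕ) => SD p.1 p.2.1 p.2.2.1 p.2.2.2)

theorem subC_countable : (subC E).Countable :=
  (countable_range _).union (countable_range _)

/-- Topology on the set of codes. -/
instance topC : TopologicalSpace (Code E) := TopologicalSpace.generateFrom (subC E)

instance : SecondCountableTopology (Code E) := ⟨⟨subC E, subC_countable, rfl⟩⟩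

theorem SA_open (i j : ℕ) (b b₂ : ℕ × ℕ × ℕ) (n m : ℕ) :
    IsOpen (SA i j b b₂ n m : Set (Code E)) :=
  TopologicalSpace.isOpen_generateFrom_of_mem
    (Or.inl ⟨(i, j, b, b₂, n, m), rfl⟩)

theorem SD_open (i j : ℕ) (b b₂ : ℕ × ℕ × ℕ) :
    IsOpen (SD i j b b₂ : Set (Code E)) :=
  TopologicalSpace.isOpen_generateFrom_of_mem
    (Or.inr ⟨(i, j, b, b₂), rfl⟩)

theorem exists_SA {c₀ : Code E} {i j : ℕ} {x : X E} (hx : x ∈ c₀.V i j) {ε : ℝ} (hε : 0 < ε) :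
    ∃ b b₂ n m, c₀ ∈ (SA i j b b₂ n m : Set (Code E)) ∧ x ∈ (ob b : Set (X E)) ∧
      (∀ c ∈ (SA i j b b₂ n m : Set (Code E)), ∀ y ∈ (ob b : Set (X E)),
        dist (c.φ i j y) (c₀.φ i j x) < ε ∧
        dist (dx (c.φ i j) y) (dx (c₀.φ i j) x) < ε) := by
  obtain ⟨b₂, hb₂1, hb₂2, hb₂3⟩ := exists_rb 0 (Metric.ball_mem_nhds (c₀.φ i j x) hε)
  obtain ⟨m, hm⟩ := exists_nat_one_div_lt (half_pos hε)
  have hpos : (0 : ℝ) < 1 / ((m : ℝ) + 1) := by positivity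
  obtain ⟨n, hn⟩ := (TopologicalSpace.denseRange_denseSeq (E →L[ℝ] E)).exists_dist_lt
    (dx (c₀.φ i j) x) (half_pos hpos)
  set L := TopologicalSpace.denseSeq (E →L[ℝ] E) n with hL
  obtain ⟨r, hr, hsapp⟩ := strictH (c₀.SN hx) (half_pos hpos)
  have h1 : (c₀.φ i j) ⁻¹' (ob b₂) ∈ 𝓝 x :=
    (c₀.contDiffAt hx).continuousAt ((ob_open b₂).mem_nhds hb₂2)
  obtain ⟨b, hb1, hb2, hb3⟩ := exists_rb 0
    (Filter.inter_mem (Filter.inter_mem ((c₀.isOpen i j).mem_nhds hx) h1)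
      (Metric.ball_mem_nhds x hr))
  refine ⟨b, b₂, n, m, ⟨fun y hy => (hb3 hy).1.1, fun y hy => ob_sub_cb b₂ (hb3 hy).1.2, ?_⟩,
    hb2, ?_⟩
  · intro y hy y' hy'
    have h2 := hsapp y ⟨(hb3 hy).2, y.2⟩ y' ⟨(hb3 hy').2, y'.2⟩
    rw [lf_cf, lf_cf] at h2
    have h3 : (c₀.φ i j y : E) - c₀.φ i j y' - L ((y : E) - y') =
        ((c₀.φ i j y : E) - c₀.φ i j y' - (dx (c₀.φ i j) x) ((y : E) - y')) +
        (dx (c₀.φ i j) x - L) ((y : E) - y') := by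
      simp only [sub_apply]
      abel
    rw [h3]
    have h4 : ‖(dx (c₀.φ i j) x - L) ((y : E) - y')‖ ≤
        (1 / ((m : ℝ) + 1) / 2) * ‖(y : E) - y'‖ := by
      refine (ContinuousLinearMap.le_opNorm _ _).trans ?_
      refine mul_le_mul_of_nonneg_right ?_ (norm_nonneg _)
      rw [← dist_eq_norm]
      exact hn.le
    have h5 := norm_add_le ((c₀.φ i j y : E) - c₀.φ i j y' - (dx (c₀.φ i j) x) ((y : E) - y'))
      ((dx (c₀.φ i j) x - L) ((y : E) - y'))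
    linarith
  · intro c hc y hy
    obtain ⟨hc1, hc2, hc3⟩ := hc
    refine ⟨hb₂3 (hc2 y (ob_sub_cb b hy)), ?_⟩
    have hyV : y ∈ c.V i j := hc1 (ob_sub_cb b hy)
    have h2 : ‖dx (c.φ i j) y - L‖ ≤ 1 / ((m : ℝ) + 1) := by
      refine le_of_lipH (c.contDiffAt hyV).1 hpos.le ?_
      filter_upwards [(ob_open b).mem_nhds hy] with z hz
      exact hc3 z (ob_sub_cb b hz) y (ob_sub_cb b hy)
    have h3 : dist (dx (c.φ i j) y) L ≤ 1 / ((m : ℝ) + 1) := by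
      rw [dist_eq_norm]
      exact h2
    have h4 := dist_triangle_right (dx (c.φ i j) y) (dx (c₀.φ i j) x) L
    have h5 : 1 / ((m : ℝ) + 1) / 2 < ε := by linarith
    linarith

theorem conv_of_sub {c : κ → Code E} {c₀ : Code E}
    (h : ∀ S ∈ subC E, c₀ ∈ S → ∀ᶠ k in l, c k ∈ S) : CConv l c c₀ := by
  have hSA : ∀ i j b b₂ n m, c₀ ∈ (SA i j b b₂ n m : Set (Code E)) → ∀ᶠ k in l,
      c k ∈ (SA i j b b₂ n m : Set (Code E)) := fun i j b b₂ n m h0 =>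
    h _ (Or.inl ⟨(i, j, b, b₂, n, m), rfl⟩) h0
  refine ⟨?_, ?_, ?_⟩
  · intro i j x hx
    obtain ⟨b, b₂, n, m, h1, h2, _⟩ := exists_SA hx one_pos
    filter_upwards [ev_fst (hSA _ _ _ _ _ _ h1), ev_snd ((ob_open b).mem_nhds h2)] with p a1 a2
    exact a1.1 (ob_sub_cb b a2)
  · intro i j x hx
    refine CS.mk' ?_ (c₀.SN hx) ?_ ?_
    · obtain ⟨b, b₂, n, m, h1, h2, _⟩ := exists_SA hx one_pos
      filter_upwards [ev_fst (hSA _ _ _ _ _ _ h1), ev_snd ((ob_open b).mem_nhds h2)] with p a1 a2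
      exact (c p.1).contDiffAt (a1.1 (ob_sub_cb b a2))
    · rw [Metric.tendsto_nhds]
      intro ε hε
      obtain ⟨b, b₂, n, m, h1, h2, h3⟩ := exists_SA hx hε
      filter_upwards [ev_fst (hSA _ _ _ _ _ _ h1), ev_snd ((ob_open b).mem_nhds h2)] with p a1 a2
      exact (h3 _ a1 _ a2).1
    · rw [Metric.tendsto_nhds]
      intro ε hε
      obtain ⟨b, b₂, n, m, h1, h2, h3⟩ := exists_SA hx hε
      filter_upwards [ev_fst (hSA _ _ _ _ _ _ h1), ev_snd ((ob_open b).mem_nhds h2)] with p a1 a2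
      exact (h3 _ a1 _ a2).2
  · intro i j x hx y hy hne
    have h1 := c₀.haus i j x hx y hy hne
    rw [nhds_prod_eq, Filter.eventually_prod_iff] at h1
    obtain ⟨pa, ha, pb, hb, h1⟩ := h1
    obtain ⟨b, hb1, hb2, hb3⟩ := exists_rb 0 (Filter.inter_mem ((c₀.isOpen i i).mem_nhds hx) ha)
    obtain ⟨b', hb1', hb2', hb3'⟩ := exists_rb 0
      (Filter.inter_mem ((c₀.isOpen j j).mem_nhds hy) hb)
    have h2 : c₀ ∈ (SD i j b b' : Set (Code E)) := by
      refine ⟨fun z hz => (hb3 hz).1, fun z hz => (hb3' hz).1, ?_⟩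
      intro z hz z' hz'
      exact h1 (hb3 hz).2 (hb3' hz').2
    have h3 := h _ (Or.inr ⟨(i, j, b, b'), rfl⟩) h2
    have h4 : ∀ᶠ p : κ × (X E × X E) in l ×ˢ 𝓝 (x, y), p.2 ∈ (ob b : Set (X E)) ×ˢ (ob b' : Set (X E)) :=
      ev_snd (((ob_open b).prod (ob_open b')).mem_nhds ⟨hb2, hb2'⟩)
    filter_upwards [ev_fst h3, h4] with p a1 a2
    exact a1.2.2 _ (ob_sub_cb b a2.1) _ (ob_sub_cb b' a2.2)

theorem conv_of_tendsto {c : κ → Code E} {c₀ : Code E} (h : Tendsto c l (𝓝 c₀)) :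
    CConv l c c₀ := by
  refine conv_of_sub ?_
  intro S hS h0
  exact h.eventually ((TopologicalSpace.isOpen_generateFrom_of_mem hS).mem_nhds h0)

/-- Embeddings of the piece `K d s` into coded manifolds. -/
structure Y (d : Code E) (s : List (ℕ × ℕ × ℕ)) where
  c : Code E
  e : Pt E → Pt E
  emb : Emb d s c e

/-- Regularity of a map at a chart point, read in the chart `i` of the target. -/
def Reg (d c : Code E) (e : Pt E → Pt E) (j i : ℕ) (G : Set (X E × (E →L[ℝ] E))) (x : X E) : Prop :=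
  x ∈ d.V j j ∧ (∀ᶠ x' in 𝓝 x, e (cls d j x') = cls c i (rp e d j i x') ∧
    rp e d j i x' ∈ c.V i i) ∧ SN (rp e d j i) x ∧ (rp e d j i x, dx (rp e d j i) x) ∈ G

/-- Subbasic sets of embeddings. -/
def SE (d : Code E) (s : List (ℕ × ℕ × ℕ)) (j i : ℕ) (b : ℕ × ℕ × ℕ)
    (G : Set (X E × (E →L[ℝ] E))) : Set (Y d s) :=
  {y | ∀ x ∈ (cb b : Set (X E)), Reg d y.c y.e j i G x}

/-- The subbasis. -/
def subY (d : Code E) (s : List (ℕ × ℕ × ℕ)) : Set (Set (Y d s)) :=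
  (fun S : Set (Code E) => {y : Y d s | y.c ∈ S}) '' subC E ∪
  ⋃ p : ℕ × ℕ × (ℕ × ℕ × ℕ), (fun G => SE d s p.1 p.2.1 p.2.2 G) ''
    TopologicalSpace.countableBasis (X E × (E →L[ℝ] E))

theorem subY_countable (d : Code E) (s : List (ℕ × ℕ × ℕ)) : (subY d s).Countable :=
  (subC_countable.image _).union
    (countable_iUnion fun _ => (TopologicalSpace.countable_countableBasis _).image _)

instance topY (d : Code E) (s : List (ℕ × ℕ × ℕ)) : TopologicalSpace (Y d s) :=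
  TopologicalSpace.generateFrom (subY d s)

instance (d : Code E) (s : List (ℕ × ℕ × ℕ)) : SecondCountableTopology (Y d s) :=
  ⟨⟨subY d s, subY_countable d s, rfl⟩⟩

variable {d : Code E} {s : List (ℕ × ℕ × ℕ)}

theorem SE_open {j i : ℕ} {b : ℕ × ℕ × ℕ} {G : Set (X E × (E →L[ℝ] E))}
    (hG : G ∈ TopologicalSpace.countableBasis (X E × (E →L[ℝ] E))) : IsOpen (SE d s j i b G) :=
  TopologicalSpace.isOpen_generateFrom_of_mem
    (Or.inr (mem_iUnion.2 ⟨(j, i, b), G, hG, rfl⟩))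

theorem Y_conv {y : κ → Y d s} {y₀ : Y d s} (h : Tendsto y l (𝓝 y₀)) :
    CConv l (fun k => (y k).c) y₀.c := by
  refine conv_of_sub ?_
  intro S hS h0
  have h1 : IsOpen {y : Y d s | y.c ∈ S} :=
    TopologicalSpace.isOpen_generateFrom_of_mem (Or.inl ⟨S, hS, rfl⟩)
  exact h.eventually (h1.mem_nhds h0)

theorem Y_mc {y : κ → Y d s} {y₀ : Y d s} (h : Tendsto y l (𝓝 y₀)) {z : Pt E}
    (hz : LD d y₀.c y₀.e z) :
    MC l (fun _ => d) d (fun k => (y k).c) y₀.c (fun k => (y k).e) y₀.e z := by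
  obtain ⟨q, hq⟩ := exists_mem hz.1
  obtain ⟨q', hq'⟩ := exists_mem hz.mem_tgt
  have h1 := hz.at hq hq'
  have hq2 := (mem_iff hz.1 q).1 hq
  set u₀ := rp y₀.e d q.1 q'.1 with hu₀
  have key : ∀ G ∈ TopologicalSpace.countableBasis (X E × (E →L[ℝ] E)),
      (u₀ q.2, dx u₀ q.2) ∈ G → ∀ᶠ p in l ×ˢ 𝓝 q.2,
        Reg d (y p.1).c (y p.1).e q.1 q'.1 G p.2 := by
    intro G hG hmem
    have hGo : IsOpen G := TopologicalSpace.isOpen_of_mem_countableBasis hG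
    have h2 : ∀ᶠ x in 𝓝 q.2, Reg d y₀.c y₀.e q.1 q'.1 G x := by
      have h3 : Tendsto (fun x => (u₀ x, dx u₀ x)) (𝓝 q.2) (𝓝 (u₀ q.2, dx u₀ q.2)) :=
        h1.sn.self.continuousAt.tendsto.prodMk_nhds h1.sn.fderiv_tendsto
      filter_upwards [(d.isOpen q.1 q.1).mem_nhds hq2.1, h1.ev0.eventually_nhds, h1.sn.ev,
        h3.eventually (hGo.mem_nhds hmem)] with x a1 a2 a3 a4
      exact ⟨a1, a2, a3, a4⟩
    obtain ⟨b, hb1, hb2, hb3⟩ := exists_rb 0 h2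
    have h3 : y₀ ∈ SE d s q.1 q'.1 b G := fun x hx => hb3 hx
    have h4 := h.eventually ((SE_open hG).mem_nhds h3)
    filter_upwards [ev_fst h4, ev_snd ((ob_open b).mem_nhds hb2)] with p a1 a2
    exact a1 _ (ob_sub_cb b a2)
  have hex : ∃ G ∈ TopologicalSpace.countableBasis (X E × (E →L[ℝ] E)),
      (u₀ q.2, dx u₀ q.2) ∈ G := by
    obtain ⟨G, hG, hmem, _⟩ := (TopologicalSpace.isBasis_countableBasis
      (X E × (E →L[ℝ] E))).exists_subset_of_mem_open (mem_univ (u₀ q.2, dx u₀ q.2)) isOpen_univ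
    exact ⟨G, hG, hmem⟩
  obtain ⟨G₀, hG₀, hmem₀⟩ := hex
  refine ⟨hz.1, q, hq, q'.1, ⟨h1.src, h1.ev0, ?_, ?_⟩⟩
  · filter_upwards [key G₀ hG₀ hmem₀] with p hp
    exact hp.2.1.self_of_nhds
  · refine ⟨?_, h1.sn, ?_⟩
    · filter_upwards [key G₀ hG₀ hmem₀] with p hp
      exact hp.2.2.1.self
    · rw [(TopologicalSpace.isBasis_countableBasis (X E × (E →L[ℝ] E))).nhds_hasBasis.tendsto_right_iff]
      rintro G ⟨hG, hmem⟩
      filter_upwards [key G hG hmem] with p hp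
      exact hp.2.2.2

end Pool.Agent.TH227.BM
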